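import Pool.Agent.Lib.MP_abd978_an.UN.H94.Capa
import Pool.Agent.Lib.MP_abd978_an.UN.H65.Comp

/-!
# Project UNW: module CAPF (the capacity estimate)
-/

set_option autoImplicit false

open MeasureTheory Metric Set Filter Topology ContDiff
open scoped Gradient RealInnerProductSpace NNReal ENNReal

namespace Pool.Agent.Lib.MP_abd978_an.UN.H94

open Pool.Agent.Lib.MP_abd978_an

variable {n : ℕ} {p α β : ℝ}

theorem test_mul {D D' : Set (E n)} {η χ : E n → ℝ} (hη : Test D η) (hχ : Test D' χ) :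
    Test D' fun x => η x * χ x :=
  ⟨hη.1.mul hχ.1, hχ.2.1.mul_left, (tsupport_mul_subset_right).trans hχ.2.2⟩

/-- the gradient of `η χ` where `χ = 1` near the points of `{η ≠ 0}` -/
theorem grad_prod {η χ : E n → ℝ} (hη : ContDiff ℝ ∞ η) (hχ : ContDiff ℝ ∞ χ) {x : E n}
    (h : η x ≠ 0 → ∀ᶠ z in 𝓝 x, χ z = 1) : ∇ (fun x => η x * χ x) x = χ x • ∇ η x := by
  rw [grad_mul (hη.differentiable (by simp) x) (hχ.differentiable (by simp) x)]
  by_cases h0 : η x = 0
  · rw [h0, zero_smul, zero_add]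
  · rw [H7.grad_eq_zero_of_eventually (h h0), smul_zero, zero_add]

theorem memLp_ind {F : Type} [NormedAddCommGroup F] {q : ℝ≥0∞} {D : Set (E n)}
    (hD : IsOpen D) {V : E n → F} (h : MemLp V q (volume.restrict D)) :
    MemLp (D.indicator V) q volume :=
  (memLp_indicator_iff_restrict hD.measurableSet).2 h

/-- replace `u`, `V` by zero outside `D` -/
theorem bsol_ind {b : E n → E n → E n} {D : Set (E n)} {u : E n → ℝ} {V : E n → E n}
    (h : BSol volume p b D u V 0 1) :
    BSol volume p b D (D.indicator u) (D.indicator V) 0 1 := by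
  obtain ⟨hD, hs, hm, he⟩ := h
  refine ⟨hD, ?_, fun x => ?_, fun φ hφ => ?_⟩
  · obtain ⟨h1, h2, φ, h3, h4, h5⟩ := hs
    have hu : u =ᵐ[volume.restrict D] D.indicator u := by
      filter_upwards [ae_restrict_mem hD.measurableSet] with x hx
      rw [indicator_of_mem hx]
    have hV : V =ᵐ[volume.restrict D] D.indicator V := by
      filter_upwards [ae_restrict_mem hD.measurableSet] with x hx
      rw [indicator_of_mem hx]
    refine ⟨h1.ae_eq hu, h2.ae_eq hV, φ, h3, ?_, ?_⟩
    · refine h4.congr fun i => eLpNorm_congr_ae ?_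
      filter_upwards [hu] with x hx
      rw [hx]
    · refine h5.congr fun i => eLpNorm_congr_ae ?_
      filter_upwards [hV] with x hx
      rw [hx]
  · by_cases hx : x ∈ D
    · rw [indicator_of_mem hx]; exact hm x
    · rw [indicator_of_notMem hx]; exact ⟨le_rfl, zero_le_one⟩
  · rw [← he φ hφ]
    refine integral_congr_ae (Eventually.of_forall fun x => ?_)
    by_cases hx : x ∈ D
    · simp only [indicator_of_mem hx]
    · have : ∇ φ x = 0 := grad_eq_zero_of_notMem fun h => hx (hφ.2.2 h)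
      simp only [this, inner_zero_right]

/-- the choice of the small radius -/
theorem exists_kappa {S ε r C e : ℝ} (hS : 0 < S) (hε : 0 < ε) (hr : 0 < r) (hC : 0 < C)
    (he : 0 < e) : ∃ k : ℝ, 0 < k ∧ 8 * k ≤ ε ∧ C * (8 * k / S) ^ e ≤ r := by
  refine ⟨S / 8 * min (ε / S) ((r / C) ^ (1 / e)), by positivity, ?_, ?_⟩
  · have h1 : 8 * (S / 8 * min (ε / S) ((r / C) ^ (1 / e))) ≤ S * (ε / S) := by
      have := min_le_left (ε / S) ((r / C) ^ (1 / e))
      calc 8 * (S / 8 * min (ε / S) ((r / C) ^ (1 / e)))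
          = S * min (ε / S) ((r / C) ^ (1 / e)) := by ring
        _ ≤ _ := mul_le_mul_of_nonneg_left this hS.le
    have h2 : S * (ε / S) = ε := by field_simp
    rwa [h2] at h1
  · have h1 : 8 * (S / 8 * min (ε / S) ((r / C) ^ (1 / e))) / S =
        min (ε / S) ((r / C) ^ (1 / e)) := by field_simp
    rw [h1]
    have h2 : min (ε / S) ((r / C) ^ (1 / e)) ^ e ≤ r / C := by
      calc min (ε / S) ((r / C) ^ (1 / e)) ^ e ≤ ((r / C) ^ (1 / e)) ^ e :=
            Real.rpow_le_rpow (by positivity) (min_le_right _ _) he.le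
        _ = r / C := by
            rw [← Real.rpow_mul (by positivity), one_div_mul_cancel he.ne', Real.rpow_one]
    calc C * min (ε / S) ((r / C) ^ (1 / e)) ^ e ≤ C * (r / C) :=
          mul_le_mul_of_nonneg_left h2 hC.le
      _ = r := by field_simp

/-- module CAPF -/
theorem capf (hpotb : PotbStatement) (hpotx : PotxStatement) (hpharm : PharmStatement)
    (hW : WeakStatement) (hI : IntgStatement) (hCa : CaccStatement) (hCh : ChainStatement) :
    CapfStatement := by
  intro n p a α β b α' β' hD Ω f hM G hG hGc hGΩ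
  have hp := hD.opa.hp
  have hn := hD.hn
  have hpn := hD.hp
  have hn1 : 1 ≤ n := by omega
  have hp0 : 0 < p := by linarith
  have hp1 : 0 < p - 1 := by linarith
  have hal : 0 < al n p := div_pos (by linarith) hp1
  have hlf := hD.opb.lf
  obtain ⟨cP, CP, hcP, hCP, hPb⟩ := hpotb n p a α β hn hpn hD.opa
  obtain ⟨C₁, hC₁, hest1⟩ := est1 hCa hD.opb
  obtain ⟨C₂, hC₂, hest2⟩ := est2 hW hI hD.opb
  -- cut-offs in the source
  obtain ⟨η, hη, hη01, hη1⟩ := H65.exists_cutoff hGc hM.isOpen hGΩ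
  obtain ⟨η', hη', hη'01, hη'1⟩ := H65.exists_cutoff hη.2.1 hM.isOpen hη.2.2
  have hηη' : ∀ x, η x ≠ 0 → η' x = 1 := fun x hx => hη'1 x (subset_tsupport _ hx)
  have hGη : ∀ x ∈ G, η x = 1 := fun x hx => hη1 x (subset_closure hx)
  -- the diameter of the image
  have hfc : ContinuousOn f (tsupport η') := hM.cont.mono hη'.2.2
  obtain ⟨M, hM0⟩ := (hη'.2.1.image_of_continuousOn hfc).isBounded.exists_norm_le
  set S : ℝ := 8 * max 1 M with hS
  have hS0 : 0 < S := by positivity
  have hηg : Integrable (fun x => ‖∇ η x‖ ^ p) volume := H50.int_rpow hp (hη.memLp_grad _)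
  have hη'g : Integrable (fun x => ‖∇ η' x‖ ^ p) volume := H50.int_rpow hp (hη'.memLp_grad _)
  have hηg0 : 0 ≤ ∫ x, ‖∇ η x‖ ^ p := integral_nonneg fun x => by positivity
  have hη'g0 : 0 ≤ ∫ x, ‖∇ η' x‖ ^ p := integral_nonneg fun x => by positivity
  set I₁ := ∫ x, ‖∇ η x‖ ^ p with hI₁
  set I₂ := ∫ x, ‖∇ η' x‖ ^ p with hI₂
  set C₃ := C₂ * (cP / 2) ^ (1 - p) * S ^ (p - n) * (C₁ * I₂ + I₁ + 1) with hC₃
  have hC₃0 : 0 < C₃ := by positivity
  refine ⟨C₃, hC₃0, fun ζ ε hε => ?_⟩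
  by_cases hζ : ∃ x₀ ∈ G, f x₀ = ζ
  swap
  · push Not at hζ
    refine ⟨fun _ => 1, fun _ => 0, ?_, continuousOn_const, fun x hx h => absurd h (hζ x hx),
      fun _ _ _ => rfl, ?_⟩
    · have hfin : volume G ≠ ⊤ := (measure_mono subset_closure).trans_lt hGc.measure_lt_top |>.ne
      have : IsFiniteMeasure (volume.restrict G) := ⟨by
        rw [Measure.restrict_apply_univ]; exact hfin.lt_top⟩
      refine ⟨memLp_const 1, MemLp.zero, fun _ _ => 1, fun _ => contDiffOn_const, ?_, ?_⟩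
      · simp
      · have : ∀ x : E n, ∇ (fun _ : E n => (1 : ℝ)) x = 0 := fun x =>
          H7.grad_eq_zero_of_eventually (c := 1) (Eventually.of_forall fun _ => rfl)
        simp [this]
    · simp only [norm_zero, Real.zero_rpow hp0.ne', integral_zero]
      positivity
  obtain ⟨x₀, hx₀, hfx₀⟩ := hζ
  have hx₀η : x₀ ∈ tsupport η' :=
    subset_tsupport _ (by rw [Function.mem_support, hηη' x₀ (by rw [hGη x₀ hx₀]; exact one_ne_zero)]; exact one_ne_zero)
  have hdist : ∀ x ∈ tsupport η', dist (f x) ζ ≤ S / 4 := by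
    intro x hx
    have h1 := hM0 (f x) ⟨x, hx, rfl⟩
    have h2 := hM0 (f x₀) ⟨x₀, hx₀η, rfl⟩
    rw [← hfx₀, dist_eq_norm]
    have h3 := norm_sub_le (f x) (f x₀)
    have h4 : M ≤ max 1 M := le_max_right _ _
    rw [hS]
    linarith
  have hGη' : ∀ x ∈ G, x ∈ tsupport η' := fun x hx =>
    subset_tsupport _ (by rw [Function.mem_support, hηη' x (by rw [hGη x hx]; exact one_ne_zero)]; exact one_ne_zero)
  by_cases hεS : ε ≤ S / 2
  swap
  · rw [not_le] at hεS
    refine ⟨fun _ => 0, fun _ => 0, ?_, continuousOn_const, fun _ _ _ => rfl, fun x hx h => ?_, ?_⟩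
    · refine ⟨MemLp.zero, MemLp.zero, fun _ _ => 0, fun _ => contDiffOn_const, ?_, ?_⟩
      · simp
      · have : ∀ x : E n, ∇ (fun _ : E n => (0 : ℝ)) x = 0 := fun x =>
          H7.grad_eq_zero_of_eventually (c := 0) (Eventually.of_forall fun _ => rfl)
        simp [this]
    · have := hdist x (hGη' x hx)
      linarith
    · simp only [norm_zero, Real.zero_rpow hp0.ne', integral_zero]
      positivity
  -- the main case
  set s : ℝ := cP / 2 * (ε / S) ^ al n p with hs
  have hs0 : 0 < s := by positivity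
  obtain ⟨k, hk, hkε, hkC⟩ := exists_kappa hS0 hε (show 0 < s / 2 by positivity) hCP hal
  have hkS : closedBall ζ k ⊆ ball ζ S := closedBall_subset_ball (by linarith)
  obtain ⟨P, hP⟩ := hpotx n p volume a α β ζ S ζ k hD.opa hk hkS
  have hP01 : ∀ z, P z ∈ Icc (0 : ℝ) 1 := hP.2.2.1
  have hup : ∀ z ∈ closedBall ζ (8 * k) \ closedBall ζ k, 1 - P z ≤ s / 2 := fun z hz =>
    ((hPb ζ S k (8 * k) P hP le_rfl (by linarith)).1 z hz).trans hkC
  have hlow : ∀ z ∈ ball ζ S \ ball ζ ε, 2 * s ≤ 1 - P z := fun z hz => by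
    have := (hPb ζ S k ε P hP hkε hεS).2 z hz
    rw [hs]
    linarith
  set An : Set (E n) := ball ζ S \ closedBall ζ k with hAn
  have hAno : IsOpen An := isOpen_ball.sdiff isClosed_closedBall
  set U : Set (E n) := Ω ∩ f ⁻¹' An with hU
  have hUo : IsOpen U := hM.cont.isOpen_inter_preimage hM.isOpen hAno
  obtain ⟨huc, V, hloc, heqn⟩ := hM.mor An P hAno (hpharm n p volume a α β ζ S ζ k P hD.opa hP)
  -- the second cut-off
  set K' : Set (E n) := tsupport η' ∩ f ⁻¹' {z | 8 * k ≤ dist z ζ} with hK'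
  have hcl8 : IsClosed {z : E n | 8 * k ≤ dist z ζ} :=
    isClosed_le continuous_const (continuous_id.dist continuous_const)
  have hK'cl : IsClosed K' := hfc.preimage_isClosed_of_isClosed (isClosed_tsupport _) hcl8
  have hK'c : IsCompact K' := hη'.2.1.of_isClosed_subset hK'cl inter_subset_left
  have hK'U : K' ⊆ U := by
    rintro x ⟨hx1, hx2⟩
    have h8 : 8 * k ≤ dist (f x) ζ := hx2
    refine ⟨hη'.2.2 hx1, mem_ball.2 ?_, fun h => ?_⟩
    · have := hdist x hx1; linarith
    · have := mem_closedBall.1 h; linarith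
  obtain ⟨χ, hχ, hχ01, hχ1⟩ := H65.exists_cutoff hK'c hUo hK'U
  obtain ⟨D', hD'o, hχD', hD'U, hD'c⟩ := exists_open_between_and_isCompact_closure hχ.2.1 hUo
    hχ.2.2
  have hχ' : Test D' χ := ⟨hχ.1, hχ.2.1, hχD'⟩
  have hsob : IsSob volume p D' (P ∘ f) V := hloc D' hD'o hD'c hD'U
  have hB₀ : BSol volume p b D' (P ∘ f) V 0 1 :=
    ⟨hD'o, hsob, fun x => hP01 (f x), heqn.mono (subset_closure.trans hD'U)⟩
  have hB := bsol_ind hB₀
  set u : E n → ℝ := D'.indicator (P ∘ f) with hu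
  set W : E n → E n := D'.indicator V with hW'
  have hWm : MemLp W (ENNReal.ofReal p) volume := memLp_ind hD'o hsob.2.1
  have hum : AEStronglyMeasurable u volume := (memLp_ind hD'o hsob.1).1
  have huD : ∀ x ∈ D', u x = P (f x) := fun x hx => indicator_of_mem hx _
  -- where `1 - u > s/2` inside `D'`
  have hfar : ∀ x ∈ D', s / 2 < 1 - u x → 8 * k < dist (f x) ζ := by
    intro x hx h
    by_contra hcon
    have h1 := (hD'U (subset_closure hx)).2
    have h2 := hup (f x) ⟨mem_closedBall.2 (not_lt.1 hcon), h1.2⟩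
    rw [huD x hx] at h
    linarith
  have hnear : ∀ x ∈ D', s / 2 < 1 - u x → η' x ≠ 0 → ∀ᶠ z in 𝓝 x, χ z = 1 := by
    intro x hx h h0
    have h1 := hfar x hx h
    have hxΩ : x ∈ Ω := (hD'U (subset_closure hx)).1
    have h2 : ∀ᶠ z in 𝓝 x, η' z ≠ 0 := hη'.1.continuous.continuousAt.eventually_ne h0
    have h3 : ∀ᶠ z in 𝓝 x, 8 * k < dist (f z) ζ :=
      ((hM.cont.continuousAt (hM.isOpen.mem_nhds hxΩ)).dist continuousAt_const).eventually
        (lt_mem_nhds h1)
    filter_upwards [h2, h3] with z h4 h5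
    exact hχ1 z ⟨subset_tsupport _ h4, h5.le⟩
  -- the two test functions
  have hT1 : Test D' fun x => η' x * χ x := test_mul hη' hχ'
  have hT2 : Test D' fun x => η x * χ x := test_mul hη hχ'
  have hT101 : ∀ x, η' x * χ x ∈ Icc (0 : ℝ) 1 := fun x =>
    ⟨mul_nonneg (hη'01 x).1 (hχ01 x).1, mul_le_one₀ (hη'01 x).2 (hχ01 x).1 (hχ01 x).2⟩
  have hT201 : ∀ x, η x * χ x ∈ Icc (0 : ℝ) 1 := fun x =>
    ⟨mul_nonneg (hη01 x).1 (hχ01 x).1, mul_le_one₀ (hη01 x).2 (hχ01 x).1 (hχ01 x).2⟩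
  have hgr1 : ∀ x, s / 2 < 1 - u x → ‖∇ (fun x => η' x * χ x) x‖ ^ p ≤ ‖∇ η' x‖ ^ p := by
    intro x h
    by_cases hx : x ∈ D'
    · rw [grad_prod hη'.1 hχ.1 (hnear x hx h), norm_smul]
      refine Real.rpow_le_rpow (by positivity) (mul_le_of_le_one_left (norm_nonneg _) ?_) hp0.le
      rw [Real.norm_eq_abs, abs_of_nonneg (hχ01 x).1]
      exact (hχ01 x).2
    · rw [grad_eq_zero_of_notMem fun h => hx (hT1.2.2 h), norm_zero, Real.zero_rpow hp0.ne']
      positivity
  have hgr2' : ∀ x ∈ D', s < 1 - u x → ∇ (fun x => η x * χ x) x = χ x • ∇ η x := by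
    intro x hx h
    exact grad_prod hη.1 hχ.1 fun h0 => hnear x hx (by linarith) (by
      rw [hηη' x h0]; exact one_ne_zero)
  have hgr2 : ∀ x, s < 1 - u x → ‖∇ (fun x => η x * χ x) x‖ ^ p ≤ ‖∇ η x‖ ^ p := by
    intro x h
    by_cases hx : x ∈ D'
    · rw [hgr2' x hx h, norm_smul]
      refine Real.rpow_le_rpow (by positivity) (mul_le_of_le_one_left (norm_nonneg _) ?_) hp0.le
      rw [Real.norm_eq_abs, abs_of_nonneg (hχ01 x).1]
      exact (hχ01 x).2
    · rw [grad_eq_zero_of_notMem fun h => hx (hT2.2.2 h), norm_zero, Real.zero_rpow hp0.ne']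
      positivity
  have hone : ∀ x, s < 1 - u x → ∇ (fun x => η x * χ x) x ≠ 0 → η' x * χ x = 1 := by
    intro x h hne
    have hx : x ∈ D' := by
      by_contra hx
      exact hne (grad_eq_zero_of_notMem fun h => hx (hT2.2.2 h))
    rw [hgr2' x hx h] at hne
    have h1 : ∇ η x ≠ 0 := fun h0 => hne (by rw [h0, smul_zero])
    have h2 : x ∈ tsupport η := by
      by_contra hcon
      exact h1 (grad_eq_zero_of_notMem hcon)
    have h3 : η' x = 1 := hη'1 x h2
    have h4 : x ∈ tsupport η' := subset_tsupport _ (by rw [Function.mem_support, h3]; exact one_ne_zero)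
    rw [h3, hχ1 x ⟨h4, (hfar x hx (by linarith)).le⟩, one_mul]
  have hGz : ∀ x ∈ G, s < 1 - u x → ∇ (fun x => η x * χ x) x = 0 := by
    intro x hxG h
    by_cases hx : x ∈ D'
    · rw [hgr2' x hx h, grad_of_const_on hG hGη hxG, smul_zero]
    · exact grad_eq_zero_of_notMem fun h => hx (hT2.2.2 h)
  have hE1 := hest1 D' u W _ s (fun x => ‖∇ η' x‖ ^ p) hB hWm hum hs0 hT1 hT101
    (fun x => by positivity) hη'g hgr1
  have hE2 := hest2 D' u W (fun x => η x * χ x) (fun x => η' x * χ x) s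
    (fun x => ‖∇ η x‖ ^ p) G hB hWm hum hs0 hT2 hT201
    (hη'.1.continuous.mul hχ.1.continuous) hT101 (fun x => by positivity) hηg hgr2 hone
    hG.measurableSet hGz
  have hΘs : ContDiff ℝ ∞ (fun t : ℝ => Th s (1 - t)) :=
    (Th_smooth s).comp (contDiff_const.sub contDiff_id)
  have hchain := hCh n volume p D' u W 0 1 (fun t => Th s (1 - t)) (fun x => η x * χ x) hp hlf
    hD'o hB.sob hB.mem ⟨univ, isOpen_univ, subset_univ _, hΘs.contDiffOn⟩ hT2
  refine ⟨fun x => η x * χ x * Th s (1 - u x), fun x => Th s (1 - u x) • ∇ (fun x => η x * χ x) x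
    + (η x * χ x * deriv (fun t => Th s (1 - t)) (u x)) • W x, H0.toSob hchain G, ?_, ?_, ?_, ?_⟩
  · -- continuity
    intro x hx
    refine ContinuousAt.continuousWithinAt ?_
    by_cases hxD : x ∈ D'
    · have h1 : ContinuousAt u x := by
        have h2 : ContinuousAt (P ∘ f) x := huc.continuousAt
          (hUo.mem_nhds (hD'U (subset_closure hxD)))
        refine h2.congr ?_
        filter_upwards [hD'o.mem_nhds hxD] with z hz
        exact (huD z hz).symm
      exact (hη.1.continuous.mul hχ.1.continuous).continuousAt.mul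
        ((Th_smooth s).continuous.continuousAt.comp (continuousAt_const.sub h1))
    · have hxt : x ∉ tsupport χ := fun h => hxD (hχD' h)
      have h2 : (fun _ : E n => (0 : ℝ)) =ᶠ[𝓝 x] fun x => η x * χ x * Th s (1 - u x) := by
        filter_upwards [(isClosed_tsupport χ).isOpen_compl.mem_nhds hxt] with z hz
        rw [image_eq_zero_of_notMem_tsupport hz, mul_zero, zero_mul]
      exact continuousAt_const.congr h2
  · intro x hx hfx
    have hxt : x ∉ tsupport χ := by
      intro h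
      have h1 := (hχ.2.2 h).2
      refine h1.2 ?_
      rw [hfx]
      exact mem_closedBall_self hk.le
    show η x * χ x * Th s (1 - u x) = 0
    rw [image_eq_zero_of_notMem_tsupport hxt, mul_zero, zero_mul]
  · intro x hx hεx
    have h1 : x ∈ K' := ⟨hGη' x hx, show 8 * k ≤ dist (f x) ζ by linarith⟩
    have h2 : χ x = 1 := hχ1 x h1
    have h3 : x ∈ D' := hχD' (subset_tsupport _ (by rw [Function.mem_support, h2]; exact one_ne_zero))
    have h4 : 2 * s ≤ 1 - P (f x) := hlow (f x)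
      ⟨mem_ball.2 (by have := hdist x (hGη' x hx); linarith),
        fun h => by have := mem_ball.1 h; linarith⟩
    show η x * χ x * Th s (1 - u x) = 1
    rw [hGη x hx, h2, huD x h3, Th_one hs0 h4]
    norm_num
  · refine hE2.trans ?_
    have h1 : s ^ (1 - p) = (cP / 2) ^ (1 - p) * S ^ (p - n) * ε ^ ((n : ℝ) - p) := by
      rw [hs, Real.mul_rpow (by positivity) (by positivity), ← Real.rpow_mul (by positivity)]
      have h2 : al n p * (1 - p) = (n : ℝ) - p := by
        rw [al]; field_simp; ring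
      rw [h2, Real.div_rpow hε.le hS0.le]
      have h3 : S ^ (p - n) = (S ^ ((n : ℝ) - p))⁻¹ := by
        rw [← Real.rpow_neg hS0.le]; congr 1; ring
      rw [h3]
      ring
    have h2 : (∫ x, (η' x * χ x) ^ ⌈p⌉₊ * (ps s (1 - u x) * ‖W x‖ ^ p)) + I₁ ≤
        C₁ * I₂ + I₁ + 1 := by linarith
    calc C₂ * s ^ (1 - p) *
          ((∫ x, (η' x * χ x) ^ ⌈p⌉₊ * (ps s (1 - u x) * ‖W x‖ ^ p)) + ∫ x, ‖∇ η x‖ ^ p)
        ≤ C₂ * s ^ (1 - p) * (C₁ * I₂ + I₁ + 1) :=
          mul_le_mul_of_nonneg_left h2 (by positivity)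
      _ = C₃ * ε ^ ((n : ℝ) - p) := by rw [h1, hC₃]; ring

end Pool.Agent.Lib.MP_abd978_an.UN.H94
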