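import Pool.Agent.Lib.MP_abd978_an.UN.H94.Pd
import Pool.Agent.Lib.MP_abd978_an.Weak

/-!
# Project UNW: module POTB (potentials of small balls)
-/

set_option autoImplicit false

open MeasureTheory Metric Set Filter Topology ContDiff
open scoped Gradient RealInnerProductSpace NNReal ENNReal

namespace Pool.Agent.Lib.MP_abd978_an.UN.H94

open Pool.Agent.Lib.MP_abd978_an

variable {n : ℕ} {p α β : ℝ} {a : E n → E n → E n}

theorem isSob_congr'' {μ : Measure (E n)} {D : Set (E n)} {u u' : E n → ℝ}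
    {v : E n → E n} (h : IsSob μ p D u v) (hu : u =ᵐ[μ.restrict D] u') : IsSob μ p D u' v := by
  obtain ⟨h1, h2, φ, h3, h4, h5⟩ := h
  refine ⟨h1.ae_eq hu, h2, φ, h3, ?_, h5⟩
  refine h4.congr fun i => eLpNorm_congr_ae ?_
  filter_upwards [hu] with x hx
  rw [hx]

theorem grad_const (c : ℝ) (x : E n) : ∇ (fun _ : E n => c) x = 0 :=
  H7.grad_eq_zero_of_eventually (c := c) (Eventually.of_forall fun _ => rfl)

theorem abs_deriv_GG {m : ℝ} (hm : 0 < m) (s : ℝ) : |deriv (GG m) s| ≤ 1 := by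
  rw [(GG_deriv hm.ne' s).deriv, abs_of_nonneg (chi_nonneg _)]
  exact chi_le_one _

theorem min_upper (hM : MorreyStatement) (hH : H0cStatement) (hB : BchainStatement)
    (hC : CutStatement) (hP : PairStatement) (hI : IntgStatement) (hn : 1 ≤ n)
    (hpn : (n : ℝ) < p) (hop : Op p volume a α β) :
    ∃ C : ℝ, 0 < C ∧ ∀ (y : E n) (S κ ε ρ m : ℝ) (P g : E n → ℝ) (V : E n → E n),
      PD p a y S κ ε P g V → 8 * κ ≤ ρ → ρ ≤ S / 2 → 0 < m →
      (∀ z ∈ sphere y ρ, m ≤ 1 - P z) → m ≤ C * (ρ / S) ^ al n p := by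
  have hp := hop.hp
  have hp0 : 0 < p := by linarith
  have hp1 : 0 < p - 1 := by linarith
  have hα := hop.hα
  obtain ⟨CM, hCM, hM⟩ := hM n p hn hpn
  obtain ⟨CE, hCE, hE⟩ := energy_upper hC hP hI hn hop
  obtain ⟨CR, -, hrep⟩ := PD.rep hH hn hpn hop
  set K := (2 * CM) ^ p * 2 ^ (p - n) * α⁻¹ * CE with hK
  have hK0 : 0 < K := by positivity
  refine ⟨K ^ (1 / (p - 1)), by positivity, fun y S κ ε ρ m P g V h hκρ hρS hm hmP => ?_⟩
  have hκ := h.hκ
  have hρ : 0 < ρ := by linarith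
  have hS : 0 < S := by linarith
  have hlf := hop.lf
  obtain ⟨z₀, hz₀⟩ := H7.exists_mem_sphere hn y hρ
  have hm1 : m ≤ 1 := (hmP z₀ hz₀).trans (by linarith [(h.h01 z₀).1])
  have hc1 := H1_one_ge
  have hc1' := H1_one_le
  have hgU : Test univ g := h.hg.mono (subset_univ _)
  have hV := h.memV
  have hVV := (hI n p volume volume a α β V V hop hV hV).1
  have hmc : 0 ≤ m * H1 1 := by positivity
  have hmc1 : m * H1 1 ≤ 1 := mul_le_one₀ hm1 (by linarith) hc1'
  -- the first test function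
  set H : ℝ → ℝ := fun s => GG m s - m * H1 1 * s with hHd
  have hHs : ContDiff ℝ ∞ H := (GG_smooth m).sub (contDiff_const.mul contDiff_id)
  have hHder : ∀ s, HasDerivAt H (chi ((1 - s) / m) - m * H1 1) s := by
    intro s
    have h1 : HasDerivAt (fun s : ℝ => m * H1 1 * s) (m * H1 1) s := by
      simpa using (hasDerivAt_id s).const_mul (m * H1 1)
    exact (GG_deriv hm.ne' s).sub h1
  have hH0 : H 0 = 0 := by
    show GG m 0 - m * H1 1 * 0 = 0
    rw [GG_zero hm hm1, mul_zero, sub_zero]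
  have hH1 : H 1 = 0 := by
    show GG m 1 - m * H1 1 * 1 = 0
    rw [GG_one, mul_one, sub_self]
  have hHL : ∀ t, |deriv H t| ≤ 2 := by
    intro t
    rw [(hHder t).deriv, abs_le]
    have := chi_nonneg ((1 - t) / m)
    have := chi_le_one ((1 - t) / m)
    constructor <;> linarith
  have hts1 : ∀ x, g x = 0 → (fun x => (1 : ℝ) * H (g x)) x = 0 := by
    intro x hx
    show 1 * H (g x) = 0
    rw [hx, hH0, mul_zero]
  have hcs : HasCompactSupport fun x => (1 : ℝ) * H (g x) := by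
    refine HasCompactSupport.of_support_subset_isCompact h.hg.2.1 fun x hx => ?_
    by_contra hcon
    exact hx (hts1 x (image_eq_zero_of_notMem_tsupport hcon))
  have hts : tsupport (fun x => (1 : ℝ) * H (g x)) ⊆ ball y S \ closedBall y κ := by
    intro x hx
    refine ⟨h.hg.2.2 ?_, fun hxK => ?_⟩
    · refine closure_minimal (fun z hz => ?_) (isClosed_tsupport g) hx
      by_contra hcon
      exact hz (hts1 z (image_eq_zero_of_notMem_tsupport hcon))
    · have hxO : x ∈ ball y (κ + ε) :=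
        mem_ball.2 ((mem_closedBall.1 hxK).trans_lt (by have := h.hε; linarith))
      obtain ⟨z, hz1, hz2⟩ := mem_closure_iff.1 hx _ isOpen_ball hxO
      refine hz2 ?_
      show 1 * H (g z) = 0
      rw [h.h1 z (ball_subset_closedBall hz1), hH1, mul_zero]
  have hψ := hB n volume p _ P V g (fun _ => (1 : ℝ)) H 2 hp hlf (isOpen_ann y S κ) hgU h.h0
    hHs hHL contDiff_const (fun x => by norm_num) (fun x => by rw [grad_const]; simp) hcs hts
  have hpair := hP n p volume a α β _ V _ _ hop (isOpen_ann y S κ) (hV.restrict _) h.eqn hψ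
  have hpi := (hI n p volume volume a α β V _ hop hV hψ.2.1).1
  have hform : ∀ x, ⟪a x (V x), H (P x) • ∇ (fun _ : E n => (1 : ℝ)) x +
      (1 * deriv H (P x)) • V x⟫ =
      chi ((1 - P x) / m) * ⟪a x (V x), V x⟫ - m * H1 1 * ⟪a x (V x), V x⟫ := by
    intro x
    rw [grad_const, smul_zero, zero_add, one_mul, (hHder (P x)).deriv, inner_smul_right]
    ring
  simp only [hform] at hpair hpi
  have hchi : Integrable (fun x => chi ((1 - P x) / m) * ⟪a x (V x), V x⟫) volume := by
    have := hpi.add (hVV.const_mul (m * H1 1))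
    refine this.congr (Eventually.of_forall fun x => ?_)
    show chi ((1 - P x) / m) * ⟪a x (V x), V x⟫ - m * H1 1 * ⟪a x (V x), V x⟫ +
      m * H1 1 * ⟪a x (V x), V x⟫ = _
    ring
  rw [integral_sub hchi (hVV.const_mul _), integral_const_mul] at hpair
  set En := ∫ x, ⟪a x (V x), V x⟫ with hEn
  have hEn0 : 0 ≤ En := energy_nonneg hop V
  have hEnU : En ≤ CE * S ^ ((n : ℝ) - p) := hE y S κ ε P g V h (by linarith)
  -- the second test function
  have hcs2 : HasCompactSupport fun x => (1 : ℝ) * GG m (g x) := by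
    refine HasCompactSupport.of_support_subset_isCompact h.hg.2.1 fun x hx => ?_
    by_contra hcon
    refine hx ?_
    show 1 * GG m (g x) = 0
    rw [image_eq_zero_of_notMem_tsupport hcon, GG_zero hm hm1, mul_zero]
  have hts2 : tsupport (fun x => (1 : ℝ) * GG m (g x)) ⊆ ball y S := by
    refine Subset.trans (closure_minimal (fun z hz => ?_) (isClosed_tsupport g)) h.hg.2.2
    by_contra hcon
    refine hz ?_
    show 1 * GG m (g z) = 0
    rw [image_eq_zero_of_notMem_tsupport hcon, GG_zero hm hm1, mul_zero]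
  have hψ2 := hB n volume p _ P V g (fun _ => (1 : ℝ)) (GG m) 2 hp hlf isOpen_ball hgU
    (h.h0.mono sdiff_subset) (GG_smooth m) (fun t => (abs_deriv_GG hm t).trans (by norm_num))
    contDiff_const (fun x => by norm_num) (fun x => by rw [grad_const]; simp) hcs2 hts2
  set v₂ : E n → E n := fun x => GG m (P x) • ∇ (fun _ : E n => (1 : ℝ)) x +
    (1 * deriv (GG m) (P x)) • V x with hv₂
  have hv₂n : ∀ x, ‖v₂ x‖ ^ p ≤ α⁻¹ * (chi ((1 - P x) / m) * ⟪a x (V x), V x⟫) := by
    intro x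
    have h1 : v₂ x = chi ((1 - P x) / m) • V x := by
      rw [hv₂]
      show GG m (P x) • ∇ (fun _ : E n => (1 : ℝ)) x + (1 * deriv (GG m) (P x)) • V x = _
      rw [grad_const, smul_zero, zero_add, one_mul, (GG_deriv hm.ne' (P x)).deriv]
    have hc0 := chi_nonneg ((1 - P x) / m)
    have hcl := chi_le_one ((1 - P x) / m)
    rw [h1, norm_smul, Real.norm_of_nonneg hc0, Real.mul_rpow hc0 (norm_nonneg _)]
    have h2 : chi ((1 - P x) / m) ^ p ≤ chi ((1 - P x) / m) := by
      rcases hc0.eq_or_lt with h0 | h0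
      · rw [← h0, Real.zero_rpow hp0.ne']
      · calc chi ((1 - P x) / m) ^ p ≤ chi ((1 - P x) / m) ^ (1 : ℝ) :=
              Real.rpow_le_rpow_of_exponent_ge h0 hcl hp.le
          _ = _ := Real.rpow_one _
    have h3 := hop.ell x (V x)
    have h4 : ‖V x‖ ^ p ≤ α⁻¹ * ⟪a x (V x), V x⟫ := by
      rw [inv_mul_eq_div, le_div_iff₀ hα]; linarith
    calc chi ((1 - P x) / m) ^ p * ‖V x‖ ^ p ≤ chi ((1 - P x) / m) * ‖V x‖ ^ p :=
          mul_le_mul_of_nonneg_right h2 (by positivity)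
      _ ≤ chi ((1 - P x) / m) * (α⁻¹ * ⟪a x (V x), V x⟫) := mul_le_mul_of_nonneg_left h4 hc0
      _ = _ := by ring
  have hv₂int : ∫ x, ‖v₂ x‖ ^ p ≤ α⁻¹ * (m * (CE * S ^ ((n : ℝ) - p))) := by
    calc ∫ x, ‖v₂ x‖ ^ p ≤ ∫ x, α⁻¹ * (chi ((1 - P x) / m) * ⟪a x (V x), V x⟫) :=
          integral_mono (H50.int_rpow hp hψ2.2.1) (hchi.const_mul _) hv₂n
      _ = α⁻¹ * (m * H1 1 * En) := by
          rw [integral_const_mul]; congr 1; linarith
      _ ≤ α⁻¹ * (m * (CE * S ^ ((n : ℝ) - p))) := by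
          refine mul_le_mul_of_nonneg_left ?_ (by positivity)
          calc m * H1 1 * En ≤ m * 1 * En := by gcongr
            _ = m * En := by ring
            _ ≤ _ := by gcongr
  -- Morrey
  obtain ⟨P', hP'c, hP'ae, hP'1, hP'e, -⟩ := hrep y S κ ε P g V h
  have hsob : IsSob volume p (ball y (2 * ρ)) (fun x => GG m (P' x)) v₂ := by
    refine isSob_congr'' (H0.toSob hψ2 _) ?_
    refine ae_restrict_of_ae ?_
    filter_upwards [hP'ae] with x hx
    rw [hx, one_mul]
  have hz₀d : dist z₀ y = ρ := mem_sphere.1 hz₀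
  have hz₀b : z₀ ∈ ball y (2 * ρ) := mem_ball.2 (by linarith)
  have hmor := hM y (2 * ρ) (fun x => GG m (P' x)) v₂ (by positivity)
    ((GG_smooth m).continuous.comp hP'c).continuousOn hsob y (mem_ball_self (by positivity))
    z₀ hz₀b
  have hz₀a : z₀ ∈ ball y S \ closedBall y κ :=
    ⟨mem_ball.2 (by linarith), fun h => by have := mem_closedBall.1 h; linarith⟩
  rw [hP'1, hP'e z₀ hz₀a, GG_one, GG_far hm (hmP z₀ hz₀), sub_zero, abs_of_nonneg hmc] at hmor
  have hle : ∫ z in ball y (2 * ρ), ‖v₂ z‖ ^ p ≤ α⁻¹ * (m * (CE * S ^ ((n : ℝ) - p))) :=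
    (setIntegral_le_integral (H50.int_rpow hp hψ2.2.1)
      (Eventually.of_forall fun x => by positivity)).trans hv₂int
  have hin0 : 0 ≤ ∫ z in ball y (2 * ρ), ‖v₂ z‖ ^ p := integral_nonneg fun x => by positivity
  set T := α⁻¹ * (m * (CE * S ^ ((n : ℝ) - p))) with hT
  have hT0 : 0 < T := by positivity
  have h5 : m / 2 ≤ CM * (2 * ρ) ^ (1 - n / p) * T ^ (1 / p) := by
    have h51 : m / 2 ≤ m * H1 1 := by
      rw [div_eq_mul_one_div]
      exact mul_le_mul_of_nonneg_left hc1 hm.le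
    have h52 : (∫ z in ball y (2 * ρ), ‖v₂ z‖ ^ p) ^ (1 / p) ≤ T ^ (1 / p) :=
      Real.rpow_le_rpow hin0 hle (by positivity)
    have h53 : 0 ≤ CM * (2 * ρ) ^ (1 - n / p) := by positivity
    exact h51.trans (hmor.trans (mul_le_mul_of_nonneg_left h52 h53))
  have h6 : m ≤ 2 * CM * (2 * ρ) ^ (1 - n / p) * T ^ (1 / p) := by linarith
  have h7 : m ^ p ≤ (2 * CM) ^ p * (2 * ρ) ^ (p - n) * T := by
    calc m ^ p ≤ (2 * CM * (2 * ρ) ^ (1 - n / p) * T ^ (1 / p)) ^ p :=
          Real.rpow_le_rpow hm.le h6 hp0.le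
      _ = _ := by
          rw [Real.mul_rpow (by positivity) (by positivity),
            Real.mul_rpow (by positivity) (by positivity), ← Real.rpow_mul (by positivity),
            ← Real.rpow_mul hT0.le, one_div_mul_cancel hp0.ne', Real.rpow_one]
          congr 3
          field_simp
  have h8 : m ^ p ≤ K * m * (ρ / S) ^ (p - n) := by
    refine h7.trans (le_of_eq ?_)
    rw [hT, hK, Real.div_rpow hρ.le hS.le, Real.mul_rpow zero_le_two hρ.le]
    have h9 : S ^ ((n : ℝ) - p) = (S ^ (p - n))⁻¹ := by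
      rw [← Real.rpow_neg hS.le]; congr 1; ring
    rw [h9]
    field_simp
  exact alg_up hp hm hK0 (by positivity) h8

theorem max_lower (hH : H0cStatement) (hC : CutStatement) (hCa : CaccStatement)
    (hP : PairStatement) (hI : IntgStatement) (hpmin : PminStatement) (hn : 1 ≤ n)
    (hpn : (n : ℝ) < p) (hop : Op p volume a α β) :
    ∃ c : ℝ, 0 < c ∧ ∀ (y : E n) (S κ ρ M : ℝ) (P : E n → ℝ),
      IsPot volume p a y S y κ P → 8 * κ ≤ ρ → ρ ≤ S / 2 →
      (∀ z ∈ sphere y ρ, 1 - P z ≤ M) → c * (ρ / S) ^ al n p ≤ M := by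
  have hp := hop.hp
  have hp0 : 0 < p := by linarith
  have hp1 : 0 < p - 1 := by linarith
  have hα := hop.hα
  have hβ : 0 < β := hα.trans_le hop.hαβ
  have hom := unit_pos n
  obtain ⟨c₀, hc₀, hlow⟩ := energy_lower hH hI hn hpn hop
  obtain ⟨C₁, hC₁, hann⟩ := annCut' hC n
  obtain ⟨C₂, hC₂, hcut⟩ := hC n
  obtain ⟨C₃, hC₃, hCa⟩ := hCa n p volume a α β hop
  set om := volume.real (ball (0 : E n) 1) with homd
  set K₁ := C₃ * ((24 * C₁) ^ p * om) with hK₁
  set K₂ := (4 * C₂) ^ p * om with hK₂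
  have hK₁0 : 0 < K₁ := by positivity
  have hK₂0 : 0 < K₂ := by positivity
  set K := β * (K₁ ^ ((p - 1) / p) * K₂ ^ (1 / p)) with hK
  have hK0 : 0 < K := by positivity
  refine ⟨(c₀ / K) ^ (1 / (p - 1)), by positivity, fun y S κ ρ M P hpot hκρ hρS hM => ?_⟩
  obtain ⟨ε, g, V, h⟩ := exists_pd hpot
  have hκ := h.hκ
  have hρ : 0 < ρ := by linarith
  have hS : 0 < S := by linarith
  have hlf := hop.lf
  obtain ⟨z₀, hz₀⟩ := H7.exists_mem_sphere hn y hρ
  have hM0 : 0 ≤ M := le_trans (by linarith [(h.h01 z₀).2]) (hM z₀ hz₀)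
  have hin : ∀ x ∈ ball y ρ \ closedBall y κ, 1 - M ≤ P x :=
    hpmin n p volume a α β y S y κ P ρ (1 - M) hn hop hpot
      (closedBall_subset_ball (by linarith)) (by linarith) fun z hz => by linarith [hM z hz]
  have hV := h.memV
  have hlowE := hlow y S κ ε P g V h
  -- the cut-off for the energy
  obtain ⟨g', hg', -, hg'1, hg's, hg'd⟩ := hcut y (ρ / 2) (3 * ρ / 4) (by positivity)
    (by linarith)
  have hT : Test (ball y S) g' := ⟨hg'.1, hg'.2.1, hg's.trans
    (closedBall_subset_ball (by linarith))⟩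
  have h' := h.swap hp hT (ε' := ρ / 4) (by positivity) fun x hx =>
    hg'1 x (closedBall_subset_closedBall (by linarith) hx)
  have e1 := h'.energy_eq hP hI hop
  set A : Set (E n) := {x | ρ / 2 ≤ dist x y ∧ dist x y ≤ 3 * ρ / 4} with hA
  have hAc : IsClosed A :=
    (isClosed_le continuous_const (continuous_id.dist continuous_const)).inter
      (isClosed_le (continuous_id.dist continuous_const) continuous_const)
  have hAm : MeasurableSet A := hAc.measurableSet
  have hAb : A ⊆ ball y ρ := fun x hx => mem_ball.2 (by have := hx.2; linarith)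
  have hg'0 : ∀ x, x ∉ A → ∇ g' x = 0 := by
    intro x hx
    by_cases h1 : ρ / 2 ≤ dist x y
    · have h2 : 3 * ρ / 4 < dist x y := by
        by_contra hcon
        exact hx ⟨h1, not_lt.1 hcon⟩
      exact grad_eq_zero_of_notMem fun h => by have := mem_closedBall.1 (hg's h); linarith
    · exact grad_of_const_on isOpen_ball (c := 1)
        (fun z hz => hg'1 z (ball_subset_closedBall hz)) (mem_ball.2 (not_le.1 h1))
  have e2 : ∫ x, ⟪a x (V x), ∇ g' x⟫ = ∫ x in A, ⟪a x (V x), ∇ g' x⟫ := by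
    refine (setIntegral_eq_integral_of_forall_compl_eq_zero fun x hx => ?_).symm
    rw [hg'0 x hx, inner_zero_right]
  have hG : MemLp (fun x => ∇ g' x) (ENNReal.ofReal p) volume := hT.memLp_grad _
  have e3 := (hI n p volume (volume.restrict A) a α β V _ hop (hV.restrict _)
    (hG.restrict _)).2.2.2
  rw [← e2, ← e1] at e3
  have e4 := (le_abs_self _).trans e3
  -- bound of the cut-off
  have hgb : ∫ x in A, ‖∇ g' x‖ ^ p ≤ K₂ * ρ ^ ((n : ℝ) - p) := by
    have h1 : ∫ x in A, ‖∇ g' x‖ ^ p ≤ ∫ x in ball y ρ, (4 * C₂ / ρ) ^ p := by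
      refine (setIntegral_mono_set (H50.int_rpow hp hG).integrableOn
        (Eventually.of_forall fun x => by positivity) hAb.eventuallyLE).trans ?_
      refine setIntegral_mono (H50.int_rpow hp hG).integrableOn
        (integrableOn_const (hs := measure_ball_lt_top.ne)) fun x => ?_
      refine Real.rpow_le_rpow (norm_nonneg _) ((hg'd x).trans (le_of_eq ?_)) hp0.le
      field_simp
      ring
    refine h1.trans (le_of_eq ?_)
    rw [setIntegral_const, smul_eq_mul, vol_ball hn y hρ, hK₂, ← homd,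
      Real.div_rpow (by positivity) hρ.le, Real.rpow_sub hρ]
    field_simp
  -- Caccioppoli
  obtain ⟨η, hη, hη01, hη1, hηs, hηd⟩ := hann y (ρ / 4) (3 * ρ / 8) (13 * ρ / 16) (7 * ρ / 8)
    (by positivity) (by linarith) (by linarith) (by linarith)
  have hηD : Test (ball y S \ closedBall y κ) η := by
    refine ⟨hη.1, hη.2.1, fun x hx => ?_⟩
    obtain ⟨h1, h2⟩ := hηs hx
    refine ⟨mem_ball.2 (by linarith), fun h => ?_⟩
    have := mem_closedBall.1 h
    linarith
  have hbs : BSol volume p a (ball y S \ closedBall y κ) P V 0 1 :=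
    H50.bsol hop h.h01 (h.hg.mono (subset_univ _)) h.h0 h.eqn (isOpen_ann y S κ) subset_rfl
  have hca := hCa _ P V 0 1 (fun t => t - 1) η hbs ⟨univ, isOpen_univ, subset_univ _,
    (contDiff_id.sub contDiff_const).contDiffOn⟩ (fun t _ => by simp) hηD hη01
  have hca1 : ∫ x, η x ^ ⌈p⌉₊ * ‖V x‖ ^ p ≤ K₁ * (M ^ p * ρ ^ ((n : ℝ) - p)) := by
    have h1 : ∫ x, η x ^ ⌈p⌉₊ * ‖V x‖ ^ p =
        ∫ x, η x ^ ⌈p⌉₊ * (deriv (fun t : ℝ => t - 1) (P x) * ‖V x‖ ^ p) := by
      refine integral_congr_ae (Eventually.of_forall fun x => ?_)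
      simp
    rw [h1]
    refine hca.trans ?_
    have h2 : ∀ x, |P x - 1| ^ p * deriv (fun t : ℝ => t - 1) (P x) ^ (1 - p) * ‖∇ η x‖ ^ p ≤
        (ball y ρ).indicator (fun _ => M ^ p * (24 * C₁ / ρ) ^ p) x := by
      intro x
      have h3 : deriv (fun t : ℝ => t - 1) (P x) = 1 := by simp
      rw [h3, Real.one_rpow, mul_one]
      by_cases hx : x ∈ tsupport η
      · obtain ⟨h4, h5⟩ := hηs hx
        have hxb : x ∈ ball y ρ := mem_ball.2 (by linarith)
        have hxa : x ∈ ball y ρ \ closedBall y κ :=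
          ⟨hxb, fun h => by have := mem_closedBall.1 h; linarith⟩
        rw [indicator_of_mem hxb]
        have h6 : |P x - 1| ≤ M := by
          rw [abs_le]; constructor <;> linarith [hin x hxa, (h.h01 x).2]
        have h7 : ‖∇ η x‖ ≤ 24 * C₁ / ρ := (hηd x).trans (le_of_eq (by field_simp; ring))
        gcongr
      · rw [grad_eq_zero_of_notMem hx, norm_zero, Real.zero_rpow hp0.ne', mul_zero]
        exact indicator_nonneg (fun _ _ => by positivity) x
    have h8 : Integrable ((ball y ρ).indicator fun _ : E n => M ^ p * (24 * C₁ / ρ) ^ p)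
        volume := (integrable_indicator_iff measurableSet_ball).2
        (integrableOn_const (hs := measure_ball_lt_top.ne))
    have h9 : ∫ x, |P x - 1| ^ p * deriv (fun t : ℝ => t - 1) (P x) ^ (1 - p) * ‖∇ η x‖ ^ p ≤
        M ^ p * (24 * C₁ / ρ) ^ p * (ρ ^ (n : ℝ) * om) := by
      refine (integral_mono_of_nonneg (Eventually.of_forall fun x => ?_) h8
        (Eventually.of_forall h2)).trans (le_of_eq ?_)
      · have h3 : deriv (fun t : ℝ => t - 1) (P x) = 1 := by simp
        show 0 ≤ |P x - 1| ^ p * deriv (fun t : ℝ => t - 1) (P x) ^ (1 - p) * ‖∇ η x‖ ^ p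
        rw [h3]
        positivity
      · rw [integral_indicator measurableSet_ball, setIntegral_const, smul_eq_mul,
          vol_ball hn y hρ, ← homd]
        ring
    refine (mul_le_mul_of_nonneg_left h9 hC₃.le).trans (le_of_eq ?_)
    rw [hK₁, Real.div_rpow (by positivity) hρ.le, Real.rpow_sub hρ]
    field_simp
  have hAV : ∫ x in A, ‖V x‖ ^ p ≤ K₁ * (M ^ p * ρ ^ ((n : ℝ) - p)) := by
    refine le_trans ?_ hca1
    rw [← integral_indicator hAm]
    refine integral_mono_of_nonneg (Eventually.of_forall fun x =>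
      indicator_nonneg (fun _ _ => by positivity) x) ?_ (Eventually.of_forall fun x => ?_)
    · refine (H50.int_rpow hp hV).mono' (((hη.1.continuous.pow _).aestronglyMeasurable).mul
        (H50.int_rpow hp hV).1) (Eventually.of_forall fun x => ?_)
      have h2 : 0 ≤ ‖V x‖ ^ p := by positivity
      have h3 : η x ^ ⌈p⌉₊ ≤ 1 := pow_le_one₀ (hη01 x).1 (hη01 x).2
      have h4 : 0 ≤ η x ^ ⌈p⌉₊ := pow_nonneg (hη01 x).1 _
      rw [Real.norm_eq_abs, abs_of_nonneg (mul_nonneg h4 h2)]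
      exact mul_le_of_le_one_left h2 h3
    · show A.indicator (fun x => ‖V x‖ ^ p) x ≤ η x ^ ⌈p⌉₊ * ‖V x‖ ^ p
      by_cases hx : x ∈ A
      · rw [indicator_of_mem hx, hη1 x (by have := hx.1; linarith) (by have := hx.2; linarith),
          one_pow, one_mul]
      · rw [indicator_of_notMem hx]
        exact mul_nonneg (pow_nonneg (hη01 x).1 _) (by positivity)
  have hA0 : 0 ≤ ∫ x in A, ‖V x‖ ^ p := integral_nonneg fun x => by positivity
  have hA1 : 0 ≤ ∫ x in A, ‖∇ g' x‖ ^ p := integral_nonneg fun x => by positivity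
  set D := ρ ^ ((n : ℝ) - p) with hD
  have hD0 : 0 < D := by positivity
  have e5 : c₀ * S ^ ((n : ℝ) - p) ≤ K * (M ^ (p - 1) * D) := by
    refine hlowE.trans (e4.trans ?_)
    calc β * ((∫ x in A, ‖V x‖ ^ p) ^ ((p - 1) / p) * (∫ x in A, ‖∇ g' x‖ ^ p) ^ (1 / p))
        ≤ β * ((K₁ * (M ^ p * D)) ^ ((p - 1) / p) * (K₂ * D) ^ (1 / p)) := by gcongr
      _ = _ := by
          rw [Real.mul_rpow hK₁0.le (by positivity), Real.mul_rpow (by positivity) hD0.le,
            Real.mul_rpow hK₂0.le hD0.le, ← Real.rpow_mul hM0]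
          have h1 : p * ((p - 1) / p) = p - 1 := by field_simp
          have h2 : D ^ ((p - 1) / p) * D ^ (1 / p) = D := by
            rw [← Real.rpow_add hD0]
            have : (p - 1) / p + 1 / p = 1 := by field_simp; ring
            rw [this, Real.rpow_one]
          rw [h1, hK]
          calc β * (K₁ ^ ((p - 1) / p) * (M ^ (p - 1) * D ^ ((p - 1) / p)) *
                (K₂ ^ (1 / p) * D ^ (1 / p)))
              = β * (K₁ ^ ((p - 1) / p) * K₂ ^ (1 / p)) *
                (M ^ (p - 1) * (D ^ ((p - 1) / p) * D ^ (1 / p))) := by ring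
            _ = _ := by rw [h2]
  refine alg_low hp hM0 (by positivity) (by positivity) ?_
  have h9 : S ^ ((n : ℝ) - p) = (S ^ (p - n))⁻¹ := by
    rw [← Real.rpow_neg hS.le]; congr 1; ring
  have h10 : D = (ρ ^ (p - n))⁻¹ := by
    rw [hD, ← Real.rpow_neg hρ.le]; congr 1; ring
  rw [Real.div_rpow hρ.le hS.le, div_mul_eq_mul_div, div_le_iff₀ hK0]
  rw [h9, h10] at e5
  have hρp : 0 < ρ ^ (p - n) := by positivity
  have hSp : 0 < S ^ (p - n) := by positivity
  have e6 : c₀ * (S ^ (p - n))⁻¹ * ρ ^ (p - n) ≤ K * M ^ (p - 1) := by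
    calc c₀ * (S ^ (p - n))⁻¹ * ρ ^ (p - n)
        ≤ K * (M ^ (p - 1) * (ρ ^ (p - n))⁻¹) * ρ ^ (p - n) :=
          mul_le_mul_of_nonneg_right e5 hρp.le
      _ = _ := by field_simp
  calc c₀ * (ρ ^ (p - n) / S ^ (p - n)) = c₀ * (S ^ (p - n))⁻¹ * ρ ^ (p - n) := by
        field_simp
    _ ≤ _ := e6
    _ = _ := by ring

/-- module POTB -/
theorem potb (hM : MorreyStatement) (hH : H0cStatement) (hB : BchainStatement)
    (hC : CutStatement) (hCa : CaccStatement) (hP : PairStatement) (hI : IntgStatement)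
    (hpmin : PminStatement) (hpmax : PmaxStatement) (hhalg : HalgStatement)
    (hsph : SphStatement) : PotbStatement := by
  intro n p a α β hn hpn hop
  have hn1 : 1 ≤ n := by omega
  have hp := hop.hp
  obtain ⟨C₁, hC₁, hup⟩ := min_upper hM hH hB hC hP hI hn1 hpn hop
  obtain ⟨c₁, hc₁, hlow⟩ := max_lower hH hC hCa hP hI hpmin hn1 hpn hop
  obtain ⟨Cs, hCs, hsph⟩ := hsph n p volume a α β hn hop
  have hCs0 : 0 < Cs := by linarith
  refine ⟨c₁ / Cs, Cs * C₁, by positivity, by positivity, fun y S κ ρ P hpot hκρ hρS => ?_⟩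
  obtain ⟨ε, g, V, h⟩ := exists_pd hpot
  have hκ := h.hκ
  have hρ : 0 < ρ := by linarith
  have hS : 0 < S := by linarith
  have hQ : Harm volume p a (ball y S \ closedBall y κ) fun x => 1 - P x :=
    (hhalg n p volume a α β _ P hop (isOpen_ann y S κ)
      (pharm n p volume a α β y S y κ P hop hpot)).1 1
  have hS1 : ∀ x ∈ sphere y ρ, ∀ x' ∈ sphere y ρ, 1 - P x ≤ Cs * (1 - P x') :=
    hsph y ρ _ _ hρ (isOpen_ann y S κ) hQ fun z hz1 hz2 =>
      ⟨⟨mem_ball.2 (by linarith), fun h => by have := mem_closedBall.1 h; linarith⟩,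
        by linarith [(h.h01 z).2]⟩
  have hrS : 0 < (ρ / S) ^ al n p := by positivity
  have hupS : ∀ z ∈ sphere y ρ, 1 - P z ≤ Cs * C₁ * (ρ / S) ^ al n p := by
    intro z hz
    have h0 : 0 ≤ 1 - P z := by linarith [(h.h01 z).2]
    rcases h0.eq_or_lt with h1 | h1
    · rw [← h1]; positivity
    · have h2 := hup y S κ ε ρ ((1 - P z) / Cs) P g V h hκρ hρS (by positivity) fun x hx => by
        rw [div_le_iff₀ hCs0]
        have := hS1 z hz x hx
        linarith
      rw [div_le_iff₀ hCs0] at h2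
      linarith
  have hlowS : ∀ z ∈ sphere y ρ, c₁ / Cs * (ρ / S) ^ al n p ≤ 1 - P z := by
    intro z hz
    have h2 := hlow y S κ ρ (Cs * (1 - P z)) P hpot hκρ hρS fun x hx => hS1 x hx z hz
    rw [div_mul_eq_mul_div, div_le_iff₀ hCs0]
    linarith
  refine ⟨fun z hz => ?_, fun z hz => ?_⟩
  · rcases (mem_closedBall.1 hz.1).lt_or_eq with h1 | h1
    · have h2 := hpmin n p volume a α β y S y κ P ρ (1 - Cs * C₁ * (ρ / S) ^ al n p) hn1 hop
        hpot (closedBall_subset_ball (by linarith)) (by linarith)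
        (fun z hz => by linarith [hupS z hz]) z ⟨mem_ball.2 h1, hz.2⟩
      linarith
    · exact hupS z (mem_sphere.2 h1)
  · have h2 := hpmax n p volume a α β y S y κ P ρ (1 - c₁ / Cs * (ρ / S) ^ al n p) hn1 hop
      hpot (closedBall_subset_ball (by linarith)) (by linarith)
      (fun z hz => by linarith [hlowS z hz]) z hz
    linarith

end Pool.Agent.Lib.MP_abd978_an.UN.H94
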