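import Pool.Agent.Lib.MP_abd978_an.UN.H94.Tools

/-!
# Project UNW: the energy estimates for CAPF
-/

set_option autoImplicit false

open MeasureTheory Metric Set Filter Topology ContDiff
open scoped Gradient RealInnerProductSpace NNReal ENNReal

namespace Pool.Agent.Lib.MP_abd978_an.UN.H94

open Pool.Agent.Lib.MP_abd978_an

/-! ### Truncations -/

/-- `0` for `t ≤ s/2`, `1` for `t ≥ s` -/
noncomputable def ps (s t : ℝ) : ℝ := Real.smoothTransition (2 * t / s - 1)

theorem ps_smooth (s : ℝ) : ContDiff ℝ ∞ (ps s) :=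
  Real.smoothTransition.contDiff.comp
    (((contDiff_const.mul contDiff_id).div_const s).sub contDiff_const)

theorem ps_nonneg (s t : ℝ) : 0 ≤ ps s t := Real.smoothTransition.nonneg _

theorem ps_le_one (s t : ℝ) : ps s t ≤ 1 := Real.smoothTransition.le_one _

theorem ps_zero {s t : ℝ} (hs : 0 < s) (h : t ≤ s / 2) : ps s t = 0 := by
  refine Real.smoothTransition.zero_of_nonpos ?_
  have : 2 * t / s ≤ 1 := by rw [div_le_one hs]; linarith
  linarith

theorem ps_one {s t : ℝ} (hs : 0 < s) (h : s ≤ t) : ps s t = 1 := by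
  refine Real.smoothTransition.one_of_one_le ?_
  have : 2 ≤ 2 * t / s := by rw [le_div_iff₀ hs]; linarith
  linarith

theorem ps_mono {s : ℝ} (hs : 0 < s) : Monotone (ps s) := by
  intro t t' h
  refine Real.smoothTransition.monotone ?_
  gcongr

/-- the primitive of `ps s` -/
noncomputable def Ps (s t : ℝ) : ℝ := ∫ r in (0 : ℝ)..t, ps s r

theorem Ps_deriv (s t : ℝ) : HasDerivAt (Ps s) (ps s t) t :=
  intervalIntegral.integral_hasDerivAt_right ((ps_smooth s).continuous.intervalIntegrable _ _)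
    ((ps_smooth s).continuous.stronglyMeasurableAtFilter _ _)
    (ps_smooth s).continuous.continuousAt

theorem Ps_smooth (s : ℝ) : ContDiff ℝ ∞ (Ps s) := by
  rw [contDiff_infty_iff_deriv]
  refine ⟨fun t => (Ps_deriv s t).differentiableAt, ?_⟩
  have : deriv (Ps s) = ps s := by
    funext t
    exact (Ps_deriv s t).deriv
  rw [this]
  exact ps_smooth s

theorem Ps_nonneg {s t : ℝ} (ht : 0 ≤ t) : 0 ≤ Ps s t :=
  intervalIntegral.integral_nonneg ht fun r _ => ps_nonneg s r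

theorem Ps_le {s t : ℝ} (hs : 0 < s) (ht : t ∈ Icc (0 : ℝ) 1) : Ps s t ≤ ps s t := by
  have h1 : Ps s t ≤ ∫ _r in (0 : ℝ)..t, ps s t :=
    intervalIntegral.integral_mono_on ht.1
      ((ps_smooth s).continuous.intervalIntegrable _ _) (continuous_const.intervalIntegrable _ _)
      fun r hr => ps_mono hs hr.2
  rw [intervalIntegral.integral_const, smul_eq_mul, sub_zero] at h1
  exact h1.trans (mul_le_of_le_one_left (ps_nonneg s t) ht.2)

/-- `0` for `t ≤ s`, `1` for `t ≥ 2 s` -/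
noncomputable def Th (s t : ℝ) : ℝ := Real.smoothTransition ((t - s) / s)

theorem Th_smooth (s : ℝ) : ContDiff ℝ ∞ (Th s) :=
  Real.smoothTransition.contDiff.comp ((contDiff_id.sub contDiff_const).div_const s)

theorem Th_nonneg (s t : ℝ) : 0 ≤ Th s t := Real.smoothTransition.nonneg _

theorem Th_le_one (s t : ℝ) : Th s t ≤ 1 := Real.smoothTransition.le_one _

theorem Th_zero {s t : ℝ} (hs : 0 < s) (h : t ≤ s) : Th s t = 0 :=
  Real.smoothTransition.zero_of_nonpos (div_nonpos_of_nonpos_of_nonneg (by linarith) hs.le)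

theorem Th_one {s t : ℝ} (hs : 0 < s) (h : 2 * s ≤ t) : Th s t = 1 := by
  refine Real.smoothTransition.one_of_one_le ?_
  rw [le_div_iff₀ hs]; linarith

theorem st_bound : ∃ C : ℝ, 0 < C ∧ ∀ x, 0 ≤ deriv Real.smoothTransition x ∧
    deriv Real.smoothTransition x ≤ C := by
  have hc : Continuous (deriv Real.smoothTransition) :=
    (Real.smoothTransition.contDiff (n := 1)).continuous_deriv le_rfl
  have hs : HasCompactSupport (deriv Real.smoothTransition) := by
    refine HasCompactSupport.of_support_subset_isCompact (isCompact_Icc (a := (0 : ℝ)) (b := 1))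
      fun x hx => ?_
    by_contra hcon
    refine hx ?_
    rw [mem_Icc, not_and_or, not_le, not_le] at hcon
    rcases hcon with h | h
    · have : Real.smoothTransition =ᶠ[𝓝 x] fun _ => (0 : ℝ) := by
        filter_upwards [Iio_mem_nhds h] with y hy
        exact Real.smoothTransition.zero_of_nonpos (le_of_lt hy)
      rw [this.deriv_eq]; simp
    · have : Real.smoothTransition =ᶠ[𝓝 x] fun _ => (1 : ℝ) := by
        filter_upwards [Ioi_mem_nhds h] with y hy
        exact Real.smoothTransition.one_of_one_le (le_of_lt hy)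
      rw [this.deriv_eq]; simp
  obtain ⟨C, hC⟩ := hs.exists_bound_of_continuous hc
  refine ⟨max C 1, by positivity, fun x => ⟨Real.smoothTransition.monotone.deriv_nonneg, ?_⟩⟩
  exact (le_abs_self _).trans ((hC x).trans (le_max_left _ _))

theorem Th_deriv (s t : ℝ) :
    HasDerivAt (Th s) (deriv Real.smoothTransition ((t - s) / s) / s) t := by
  have h1 : HasDerivAt (fun t : ℝ => (t - s) / s) (1 / s) t :=
    ((hasDerivAt_id t).sub_const s).div_const s
  have h2 : HasDerivAt Real.smoothTransition (deriv Real.smoothTransition ((t - s) / s))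
      ((t - s) / s) :=
    ((Real.smoothTransition.contDiff (n := 1)).differentiable (by simp) _).hasDerivAt
  have h3 := HasDerivAt.comp (h₂ := Real.smoothTransition) t h2 h1
  refine h3.congr_deriv ?_
  ring

/-! ### The estimates -/

variable {n : ℕ} {p α β : ℝ} {b : E n → E n → E n}

theorem integrable_mul_rpow (hp : 1 < p) {V : E n → E n}
    (hV : MemLp V (ENNReal.ofReal p) volume) {q : E n → ℝ} (hq : AEStronglyMeasurable q volume)
    {c : ℝ} (hqc : ∀ x, |q x| ≤ c) : Integrable (fun x => q x * ‖V x‖ ^ p) volume :=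
  (H50.int_rpow hp hV).bdd_mul hq (Eventually.of_forall fun x => hqc x)

theorem est1 (hCa : CaccStatement) (hop : Op p volume b α β) : ∃ C : ℝ, 0 < C ∧
    ∀ (D : Set (E n)) (u : E n → ℝ) (V : E n → E n) (ζ : E n → ℝ) (s : ℝ) (B : E n → ℝ),
    BSol volume p b D u V 0 1 → MemLp V (ENNReal.ofReal p) volume →
    AEStronglyMeasurable u volume → 0 < s → Test D ζ → (∀ x, ζ x ∈ Icc (0 : ℝ) 1) →
    (∀ x, 0 ≤ B x) → Integrable B volume → (∀ x, s / 2 < 1 - u x → ‖∇ ζ x‖ ^ p ≤ B x) →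
      ∫ x, ζ x ^ ⌈p⌉₊ * (ps s (1 - u x) * ‖V x‖ ^ p) ≤ C * ∫ x, B x := by
  obtain ⟨C, hC, hCa⟩ := hCa n p volume b α β hop
  have hp := hop.hp
  have hp0 : 0 < p := by linarith
  have hlf := hop.lf
  refine ⟨C, hC, fun D u V ζ s B hB hV hu hs hζ hζ01 hB0 hBi hBζ => ?_⟩
  have hg : Integrable (fun x => ‖∇ ζ x‖ ^ p) volume := H50.int_rpow hp (hζ.memLp_grad _)
  have hK0 : 0 ≤ ∫ x, ‖∇ ζ x‖ ^ p := integral_nonneg fun x => by positivity
  set K := ∫ x, ‖∇ ζ x‖ ^ p with hK
  have hpsm : AEStronglyMeasurable (fun x => ps s (1 - u x)) volume :=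
    (ps_smooth s).continuous.comp_aestronglyMeasurable (aestronglyMeasurable_const.sub hu)
  have hζm : AEStronglyMeasurable (fun x => ζ x ^ ⌈p⌉₊) volume :=
    (hζ.1.continuous.pow _).aestronglyMeasurable
  have hζp : ∀ x, 0 ≤ ζ x ^ ⌈p⌉₊ ∧ ζ x ^ ⌈p⌉₊ ≤ 1 := fun x =>
    ⟨pow_nonneg (hζ01 x).1 _, pow_le_one₀ (hζ01 x).1 (hζ01 x).2⟩
  have key : ∀ δ : ℝ, 0 < δ →
      ∫ x, ζ x ^ ⌈p⌉₊ * (ps s (1 - u x) * ‖V x‖ ^ p) ≤ C * ((∫ x, B x) + δ * K) := by
    intro δ hδ
    set Θ : ℝ → ℝ := fun t => -(Ps s (1 - t) + δ * (1 - t)) with hΘ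
    have hder : ∀ t, HasDerivAt Θ (ps s (1 - t) + δ) t := by
      intro t
      have h1 : HasDerivAt (fun t : ℝ => 1 - t) (-1) t := (hasDerivAt_id t).const_sub 1
      have h2 : HasDerivAt (fun t : ℝ => Ps s (1 - t)) (ps s (1 - t) * -1) t :=
        HasDerivAt.comp (h₂ := Ps s) t (Ps_deriv s (1 - t)) h1
      have h3 := (h2.add (h1.const_mul δ)).neg
      refine h3.congr_deriv ?_
      ring
    have hΘs : ContDiff ℝ ∞ Θ :=
      (((Ps_smooth s).comp (contDiff_const.sub contDiff_id)).add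
        (contDiff_const.mul (contDiff_const.sub contDiff_id))).neg
    have hca := hCa D u V 0 1 Θ ζ hB ⟨univ, isOpen_univ, subset_univ _, hΘs.contDiffOn⟩
      (fun t _ => by rw [(hder t).deriv]; have := ps_nonneg s (1 - t); linarith) hζ hζ01
    simp only [(hder _).deriv] at hca
    have h1 : ∫ x, ζ x ^ ⌈p⌉₊ * (ps s (1 - u x) * ‖V x‖ ^ p) ≤
        ∫ x, ζ x ^ ⌈p⌉₊ * ((ps s (1 - u x) + δ) * ‖V x‖ ^ p) := by
      refine integral_mono_of_nonneg (Eventually.of_forall fun x => ?_) ?_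
        (Eventually.of_forall fun x => ?_)
      · exact mul_nonneg (hζp x).1 (mul_nonneg (ps_nonneg _ _) (by positivity))
      · have h2 := integrable_mul_rpow hp hV (q := fun x => ζ x ^ ⌈p⌉₊ * (ps s (1 - u x) + δ))
          (hζm.mul (hpsm.add aestronglyMeasurable_const)) (c := 1 + δ) (fun x => by
            have h3 := ps_nonneg s (1 - u x)
            have h4 := ps_le_one s (1 - u x)
            have h5 := hζp x
            rw [abs_of_nonneg (mul_nonneg h5.1 (by linarith))]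
            calc ζ x ^ ⌈p⌉₊ * (ps s (1 - u x) + δ) ≤ 1 * (1 + δ) :=
                  mul_le_mul h5.2 (by linarith) (by linarith) zero_le_one
              _ = 1 + δ := one_mul _)
        refine h2.congr (Eventually.of_forall fun x => ?_)
        show ζ x ^ ⌈p⌉₊ * (ps s (1 - u x) + δ) * ‖V x‖ ^ p = _
        ring
      · refine mul_le_mul_of_nonneg_left (mul_le_mul_of_nonneg_right (by linarith)
          (by positivity)) (hζp x).1
    refine h1.trans (hca.trans (mul_le_mul_of_nonneg_left ?_ hC.le))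
    have hi : Integrable (fun x => B x + δ * ‖∇ ζ x‖ ^ p) volume := hBi.add (hg.const_mul δ)
    have h6 : (∫ x, B x) + δ * K = ∫ x, (B x + δ * ‖∇ ζ x‖ ^ p) := by
      rw [integral_add hBi (hg.const_mul δ), integral_const_mul]
    rw [h6]
    refine integral_mono_of_nonneg (Eventually.of_forall fun x => ?_) hi
      (Eventually.of_forall fun x => ?_)
    · show 0 ≤ |Θ (u x)| ^ p * (ps s (1 - u x) + δ) ^ (1 - p) * ‖∇ ζ x‖ ^ p
      have := ps_nonneg s (1 - u x)
      positivity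
    · have h3 := ps_nonneg s (1 - u x)
      have h4 := ps_le_one s (1 - u x)
      have hm := hB.mem x
      have hD : 1 - u x ∈ Icc (0 : ℝ) 1 := ⟨by linarith [hm.2], by linarith [hm.1]⟩
      have hpd : 0 < ps s (1 - u x) + δ := by linarith
      have h7 : |Θ (u x)| ≤ ps s (1 - u x) + δ := by
        have h8 := Ps_nonneg (s := s) hD.1
        have h9 := Ps_le hs hD
        have h10 : δ * (1 - u x) ≤ δ := mul_le_of_le_one_right hδ.le hD.2
        have h11 : 0 ≤ δ * (1 - u x) := mul_nonneg hδ.le hD.1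
        rw [hΘ, abs_neg, abs_of_nonneg (by linarith)]
        linarith
      have h8 : |Θ (u x)| ^ p * (ps s (1 - u x) + δ) ^ (1 - p) ≤ ps s (1 - u x) + δ := by
        calc |Θ (u x)| ^ p * (ps s (1 - u x) + δ) ^ (1 - p)
            ≤ (ps s (1 - u x) + δ) ^ p * (ps s (1 - u x) + δ) ^ (1 - p) :=
              mul_le_mul_of_nonneg_right (Real.rpow_le_rpow (abs_nonneg _) h7 hp0.le)
                (by positivity)
          _ = _ := by
              rw [← Real.rpow_add hpd]
              have : p + (1 - p) = 1 := by ring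
              rw [this, Real.rpow_one]
      show |Θ (u x)| ^ p * (ps s (1 - u x) + δ) ^ (1 - p) * ‖∇ ζ x‖ ^ p ≤
        B x + δ * ‖∇ ζ x‖ ^ p
      have h9 : 0 ≤ ‖∇ ζ x‖ ^ p := by positivity
      have h10 : ps s (1 - u x) * ‖∇ ζ x‖ ^ p ≤ B x := by
        by_cases hx : s / 2 < 1 - u x
        · exact (mul_le_of_le_one_left h9 h4).trans (hBζ x hx)
        · rw [ps_zero hs (not_lt.1 hx), zero_mul]
          exact hB0 x
      calc |Θ (u x)| ^ p * (ps s (1 - u x) + δ) ^ (1 - p) * ‖∇ ζ x‖ ^ p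
          ≤ (ps s (1 - u x) + δ) * ‖∇ ζ x‖ ^ p := mul_le_mul_of_nonneg_right h8 h9
        _ = ps s (1 - u x) * ‖∇ ζ x‖ ^ p + δ * ‖∇ ζ x‖ ^ p := by ring
        _ ≤ _ := by linarith
  refine le_of_forall_pos_le_add fun ε hε => ?_
  have hCK : 0 < C * K + 1 := by positivity
  refine (key (ε / (C * K + 1)) (by positivity)).trans ?_
  have h1 : C * (ε / (C * K + 1) * K) ≤ ε := by
    have h2 : C * (ε / (C * K + 1) * K) = ε * (C * K / (C * K + 1)) := by ring
    rw [h2]
    refine mul_le_of_le_one_right hε.le ?_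
    rw [div_le_one hCK]
    linarith
  rw [mul_add]
  linarith

theorem est2 (hW : WeakStatement) (hI : IntgStatement) (hop : Op p volume b α β) :
    ∃ C : ℝ, 0 < C ∧ ∀ (D : Set (E n)) (u : E n → ℝ) (V : E n → E n) (ζ ζ' : E n → ℝ) (s : ℝ)
    (B : E n → ℝ) (G : Set (E n)),
    BSol volume p b D u V 0 1 → MemLp V (ENNReal.ofReal p) volume →
    AEStronglyMeasurable u volume → 0 < s → Test D ζ → (∀ x, ζ x ∈ Icc (0 : ℝ) 1) →
    Continuous ζ' → (∀ x, ζ' x ∈ Icc (0 : ℝ) 1) →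
    (∀ x, 0 ≤ B x) → Integrable B volume → (∀ x, s < 1 - u x → ‖∇ ζ x‖ ^ p ≤ B x) →
    (∀ x, s < 1 - u x → ∇ ζ x ≠ 0 → ζ' x = 1) → MeasurableSet G →
    (∀ x ∈ G, s < 1 - u x → ∇ ζ x = 0) →
      ∫ x in G, ‖Th s (1 - u x) • ∇ ζ x +
        (ζ x * deriv (fun t => Th s (1 - t)) (u x)) • V x‖ ^ p ≤
      C * s ^ (1 - p) * ((∫ x, ζ' x ^ ⌈p⌉₊ * (ps s (1 - u x) * ‖V x‖ ^ p)) + ∫ x, B x) := by
  have hp := hop.hp
  have hp0 : 0 < p := by linarith
  have hp1 : 0 < p - 1 := by linarith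
  have hlf := hop.lf
  have hα := hop.hα
  have hβ : 0 < β := hα.trans_le hop.hαβ
  obtain ⟨CT, hCT, hT⟩ := st_bound
  refine ⟨CT ^ (p - 1) * α⁻¹ * β, by positivity, fun D u V ζ ζ' s B G hB hV hu hs hζ hζ01
    hζ'c hζ'01 hB0 hBi hBζ h1ζ' hG hGζ => ?_⟩
  -- the weak equation
  have hΘs : ContDiff ℝ ∞ (fun t : ℝ => Th s (1 - t)) :=
    (Th_smooth s).comp (contDiff_const.sub contDiff_id)
  have hder : ∀ t, deriv (fun t : ℝ => Th s (1 - t)) t =
      -(deriv Real.smoothTransition ((1 - t - s) / s) / s) := by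
    intro t
    have h1 : HasDerivAt (fun t : ℝ => 1 - t) (-1) t := (hasDerivAt_id t).const_sub 1
    have h2 := HasDerivAt.comp (h₂ := Th s) t (Th_deriv s (1 - t)) h1
    have h3 : deriv (fun t : ℝ => Th s (1 - t)) t =
        deriv Real.smoothTransition ((1 - t - s) / s) / s * -1 := h2.deriv
    rw [h3]
    ring
  have hw := hW n p volume b α β D u V 0 1 (fun t => Th s (1 - t)) ζ hop hB
    ⟨univ, isOpen_univ, subset_univ _, hΘs.contDiffOn⟩ hζ
  set τ : E n → ℝ := fun x => deriv Real.smoothTransition ((1 - u x - s) / s) / s with hτ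
  have hτ0 : ∀ x, 0 ≤ τ x := fun x => div_nonneg (hT _).1 hs.le
  have hτ1 : ∀ x, τ x ≤ CT / s := fun x => div_le_div_of_nonneg_right (hT _).2 hs.le
  have hdc : Continuous (deriv Real.smoothTransition) :=
    (Real.smoothTransition.contDiff (n := 1)).continuous_deriv le_rfl
  have hτm : AEStronglyMeasurable τ volume := by
    have h1 : Continuous fun r : ℝ => deriv Real.smoothTransition ((1 - r - s) / s) / s := by
      fun_prop
    exact h1.comp_aestronglyMeasurable hu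
  have hThm : AEStronglyMeasurable (fun x => Th s (1 - u x)) volume :=
    (Th_smooth s).continuous.comp_aestronglyMeasurable (aestronglyMeasurable_const.sub hu)
  have hpsm : AEStronglyMeasurable (fun x => ps s (1 - u x)) volume :=
    (ps_smooth s).continuous.comp_aestronglyMeasurable (aestronglyMeasurable_const.sub hu)
  have hζg : MemLp (fun x => ∇ ζ x) (ENNReal.ofReal p) volume := hζ.memLp_grad _
  have i1 : Integrable (fun x => Th s (1 - u x) * ⟪b x (V x), ∇ ζ x⟫) volume :=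
    (hI n p volume volume b α β V _ hop hV hζg).1.bdd_mul hThm (c := 1)
      (Eventually.of_forall fun x => by
        rw [Real.norm_eq_abs, abs_of_nonneg (Th_nonneg _ _)]; exact Th_le_one _ _)
  have i2 : Integrable (fun x => ζ x * τ x * ⟪b x (V x), V x⟫) volume :=
    (hI n p volume volume b α β V _ hop hV hV).1.bdd_mul
      (hζ.1.continuous.aestronglyMeasurable.mul hτm) (c := CT / s)
      (Eventually.of_forall fun x => by
        have h1 := hζ01 x
        rw [Real.norm_eq_abs, abs_of_nonneg (mul_nonneg h1.1 (hτ0 x))]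
        exact (mul_le_of_le_one_left (hτ0 x) h1.2).trans (hτ1 x))
  have hw2 : ∫ x, ζ x * τ x * ⟪b x (V x), V x⟫ = ∫ x, Th s (1 - u x) * ⟪b x (V x), ∇ ζ x⟫ := by
    have h1 : ∫ x, (Th s (1 - u x) * ⟪b x (V x), ∇ ζ x⟫ - ζ x * τ x * ⟪b x (V x), V x⟫) = 0 := by
      rw [← hw]
      refine integral_congr_ae (Eventually.of_forall fun x => ?_)
      show Th s (1 - u x) * ⟪b x (V x), ∇ ζ x⟫ - ζ x * τ x * ⟪b x (V x), V x⟫ =
        Th s (1 - u x) * ⟪b x (V x), ∇ ζ x⟫ +
          ζ x * deriv (fun t : ℝ => Th s (1 - t)) (u x) * ⟪b x (V x), V x⟫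
      rw [hder]
      ring
    rw [integral_sub i1 i2] at h1
    linarith
  set F : E n → ℝ := fun x => ζ' x ^ ⌈p⌉₊ * (ps s (1 - u x) * ‖V x‖ ^ p) with hF
  have hF0 : ∀ x, 0 ≤ F x := fun x =>
    mul_nonneg (pow_nonneg (hζ'01 x).1 _) (mul_nonneg (ps_nonneg _ _) (by positivity))
  have hFi : Integrable F volume := by
    have h2 := integrable_mul_rpow hp hV (q := fun x => ζ' x ^ ⌈p⌉₊ * ps s (1 - u x))
      ((hζ'c.pow _).aestronglyMeasurable.mul hpsm) (c := 1) (fun x => by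
        have h3 := ps_nonneg s (1 - u x)
        have h4 := ps_le_one s (1 - u x)
        have h5 := hζ'01 x
        have h6 : 0 ≤ ζ' x ^ ⌈p⌉₊ := pow_nonneg h5.1 _
        rw [abs_of_nonneg (mul_nonneg h6 h3)]
        exact mul_le_one₀ (pow_le_one₀ h5.1 h5.2) h3 h4)
    refine h2.congr (Eventually.of_forall fun x => ?_)
    show ζ' x ^ ⌈p⌉₊ * ps s (1 - u x) * ‖V x‖ ^ p = _
    rw [hF]
    ring
  have h3 : ∫ x, Th s (1 - u x) * ⟪b x (V x), ∇ ζ x⟫ ≤ β * ((∫ x, F x) + ∫ x, B x) := by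
    rw [← integral_add hFi hBi, ← integral_const_mul]
    refine integral_mono i1 ((hFi.add hBi).const_mul β) fun x => ?_
    show Th s (1 - u x) * ⟪b x (V x), ∇ ζ x⟫ ≤ β * (F x + B x)
    have hFB : 0 ≤ β * (F x + B x) := mul_nonneg hβ.le (add_nonneg (hF0 x) (hB0 x))
    by_cases hx : s < 1 - u x
    · by_cases hz : ∇ ζ x = 0
      · rw [hz, inner_zero_right, mul_zero]; exact hFB
      · have h4 := h1ζ' x hx hz
        have h5 : F x = ‖V x‖ ^ p := by
          show ζ' x ^ ⌈p⌉₊ * (ps s (1 - u x) * ‖V x‖ ^ p) = _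
          rw [h4, one_pow, ps_one hs hx.le, one_mul, one_mul]
        have h6 : ‖V x‖ ^ (p - 1) * ‖∇ ζ x‖ ≤ ‖V x‖ ^ p + ‖∇ ζ x‖ ^ p := by
          rcases le_total ‖V x‖ ‖∇ ζ x‖ with h | h
          · have h7 : ‖V x‖ ^ (p - 1) * ‖∇ ζ x‖ ≤ ‖∇ ζ x‖ ^ (p - 1) * ‖∇ ζ x‖ :=
              mul_le_mul_of_nonneg_right (Real.rpow_le_rpow (norm_nonneg _) h hp1.le)
                (norm_nonneg _)
            have h8 : ‖∇ ζ x‖ ^ (p - 1) * ‖∇ ζ x‖ = ‖∇ ζ x‖ ^ p := by
              rw [← Real.rpow_add_one (norm_ne_zero_iff.2 hz)]; ring_nf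
            have h9 : 0 ≤ ‖V x‖ ^ p := by positivity
            linarith
          · have hV0 : ‖V x‖ ≠ 0 := by
              have := norm_pos_iff.2 hz
              intro h0
              rw [h0] at h
              linarith
            have h7 : ‖V x‖ ^ (p - 1) * ‖∇ ζ x‖ ≤ ‖V x‖ ^ (p - 1) * ‖V x‖ :=
              mul_le_mul_of_nonneg_left h (by positivity)
            have h8 : ‖V x‖ ^ (p - 1) * ‖V x‖ = ‖V x‖ ^ p := by
              rw [← Real.rpow_add_one hV0]; ring_nf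
            have h9 : 0 ≤ ‖∇ ζ x‖ ^ p := by positivity
            linarith
        have h7 : ⟪b x (V x), ∇ ζ x⟫ ≤ β * (‖V x‖ ^ p + ‖∇ ζ x‖ ^ p) := by
          calc ⟪b x (V x), ∇ ζ x⟫ ≤ ‖b x (V x)‖ * ‖∇ ζ x‖ := real_inner_le_norm _ _
            _ ≤ β * ‖V x‖ ^ (p - 1) * ‖∇ ζ x‖ :=
                mul_le_mul_of_nonneg_right (hop.bdd x (V x)) (norm_nonneg _)
            _ = β * (‖V x‖ ^ (p - 1) * ‖∇ ζ x‖) := by ring
            _ ≤ _ := mul_le_mul_of_nonneg_left h6 hβ.le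
        have h8 : β * (‖V x‖ ^ p + ‖∇ ζ x‖ ^ p) ≤ β * (F x + B x) := by
          rw [h5]
          exact mul_le_mul_of_nonneg_left (by linarith [hBζ x hx]) hβ.le
        have h9 : 0 ≤ β * (‖V x‖ ^ p + ‖∇ ζ x‖ ^ p) := by positivity
        calc Th s (1 - u x) * ⟪b x (V x), ∇ ζ x⟫
            ≤ Th s (1 - u x) * (β * (‖V x‖ ^ p + ‖∇ ζ x‖ ^ p)) :=
              mul_le_mul_of_nonneg_left h7 (Th_nonneg _ _)
          _ ≤ 1 * (β * (‖V x‖ ^ p + ‖∇ ζ x‖ ^ p)) :=
              mul_le_mul_of_nonneg_right (Th_le_one _ _) h9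
          _ ≤ _ := by rw [one_mul]; exact h8
    · rw [Th_zero hs (not_lt.1 hx), zero_mul]; exact hFB
  -- the final estimate
  have hτp : ∀ x, (ζ x * τ x) ^ p ≤ (CT / s) ^ (p - 1) * (ζ x * τ x) := by
    intro x
    have h1 : 0 ≤ ζ x * τ x := mul_nonneg (hζ01 x).1 (hτ0 x)
    have h2 : ζ x * τ x ≤ CT / s := (mul_le_of_le_one_left (hτ0 x) (hζ01 x).2).trans (hτ1 x)
    rcases h1.eq_or_lt with h0 | h0
    · rw [← h0, Real.zero_rpow hp0.ne', mul_zero]
    · calc (ζ x * τ x) ^ p = (ζ x * τ x) ^ (p - 1) * (ζ x * τ x) := by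
            rw [← Real.rpow_add_one h0.ne']; ring_nf
        _ ≤ _ := mul_le_mul_of_nonneg_right (Real.rpow_le_rpow h1 h2 hp1.le) h1
  have h10 : ∫ x in G, ‖Th s (1 - u x) • ∇ ζ x +
      (ζ x * deriv (fun t => Th s (1 - t)) (u x)) • V x‖ ^ p ≤
      ∫ x, (CT / s) ^ (p - 1) * (α⁻¹ * (ζ x * τ x * ⟪b x (V x), V x⟫)) := by
    rw [← integral_indicator hG]
    refine integral_mono_of_nonneg (Eventually.of_forall fun x =>
      indicator_nonneg (fun _ _ => by positivity) x) ((i2.const_mul _).const_mul _)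
      (Eventually.of_forall fun x => ?_)
    have h11 : 0 ≤ ζ x * τ x := mul_nonneg (hζ01 x).1 (hτ0 x)
    have h12 : 0 ≤ ⟪b x (V x), V x⟫ := H7.aV_nonneg hop x _
    show G.indicator (fun x => ‖Th s (1 - u x) • ∇ ζ x +
      (ζ x * deriv (fun t => Th s (1 - t)) (u x)) • V x‖ ^ p) x ≤
      (CT / s) ^ (p - 1) * (α⁻¹ * (ζ x * τ x * ⟪b x (V x), V x⟫))
    by_cases hx : x ∈ G
    · rw [indicator_of_mem hx]
      have h13 : Th s (1 - u x) • ∇ ζ x = 0 := by
        by_cases hd : s < 1 - u x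
        · rw [hGζ x hx hd, smul_zero]
        · rw [Th_zero hs (not_lt.1 hd), zero_smul]
      rw [h13, zero_add, hder, norm_smul, mul_neg, norm_neg]
      have h14 : ‖ζ x * (deriv Real.smoothTransition ((1 - u x - s) / s) / s)‖ = ζ x * τ x :=
        Real.norm_of_nonneg h11
      rw [h14, Real.mul_rpow h11 (norm_nonneg _)]
      have h15 : ‖V x‖ ^ p ≤ α⁻¹ * ⟪b x (V x), V x⟫ := by
        rw [inv_mul_eq_div, le_div_iff₀ hα]; linarith [hop.ell x (V x)]
      calc (ζ x * τ x) ^ p * ‖V x‖ ^ p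
          ≤ ((CT / s) ^ (p - 1) * (ζ x * τ x)) * (α⁻¹ * ⟪b x (V x), V x⟫) :=
            mul_le_mul (hτp x) h15 (by positivity) (by positivity)
        _ = _ := by ring
    · rw [indicator_of_notMem hx]
      positivity
  refine h10.trans ?_
  rw [integral_const_mul, integral_const_mul, hw2]
  calc (CT / s) ^ (p - 1) * (α⁻¹ * ∫ x, Th s (1 - u x) * ⟪b x (V x), ∇ ζ x⟫)
      ≤ (CT / s) ^ (p - 1) * (α⁻¹ * (β * ((∫ x, F x) + ∫ x, B x))) :=
        mul_le_mul_of_nonneg_left (mul_le_mul_of_nonneg_left h3 (by positivity)) (by positivity)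
    _ = _ := by
        rw [Real.div_rpow hCT.le hs.le]
        have : s ^ (1 - p) = (s ^ (p - 1))⁻¹ := by
          rw [← Real.rpow_neg hs.le]; congr 1; ring
        rw [this]
        ring

end Pool.Agent.Lib.MP_abd978_an.UN.H94
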