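import Pool.Agent.Lib.MP_abd978_an.UN.H94.Tools

/-!
# Project UNW: potentials of concentric balls, energy
-/

set_option autoImplicit false

open MeasureTheory Metric Set Filter Topology ContDiff
open scoped Gradient RealInnerProductSpace NNReal ENNReal

namespace Pool.Agent.Lib.MP_abd978_an.UN.H94

open Pool.Agent.Lib.MP_abd978_an

variable {n : ℕ} {p α β : ℝ} {a : E n → E n → E n} {y : E n} {S κ ε : ℝ} {P g : E n → ℝ}
  {V : E n → E n}

/-- the data of a potential -/
structure PD (p : ℝ) (a : E n → E n → E n) (y : E n) (S κ ε : ℝ) (P g : E n → ℝ)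
    (V : E n → E n) : Prop where
  hκ : 0 < κ
  sub : closedBall y κ ⊆ ball y S
  h01 : ∀ x, P x ∈ Icc (0 : ℝ) 1
  cont : ContinuousOn P (ball y S \ closedBall y κ)
  hg : Test (ball y S) g
  hε : 0 < ε
  h1 : ∀ x ∈ closedBall y (κ + ε), g x = 1
  h0 : H0 volume p (ball y S \ closedBall y κ) (fun x => P x - g x) fun x => V x - ∇ g x
  eqn : Eqn volume a (ball y S \ closedBall y κ) V

theorem exists_pd (h : IsPot volume p a y S y κ P) :
    ∃ (ε : ℝ) (g : E n → ℝ) (V : E n → E n), PD p a y S κ ε P g V := by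
  obtain ⟨hκ, hsub, h01, hc, g, V, hg, -, ⟨ε, hε, h1⟩, h0, he⟩ := h
  exact ⟨ε, g, V, hκ, hsub, h01, hc, hg, hε, h1, h0, he⟩

theorem isOpen_ann (y : E n) (S κ : ℝ) : IsOpen (ball y S \ closedBall y κ) :=
  isOpen_ball.sdiff isClosed_closedBall

theorem PD.memV (h : PD p a y S κ ε P g V) : MemLp V (ENNReal.ofReal p) volume :=
  (H50.memLp_V (h.hg.mono (subset_univ _)) h.h0).2

/-- change of the cut-off -/
theorem PD.swap (h : PD p a y S κ ε P g V) (hp : 1 < p) {g' : E n → ℝ} {ε' : ℝ}
    (hg' : Test (ball y S) g') (hε' : 0 < ε') (h1' : ∀ x ∈ closedBall y (κ + ε'), g' x = 1) :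
    PD p a y S κ ε' P g' V := by
  refine ⟨h.hκ, h.sub, h.h01, h.cont, hg', hε', h1', ?_, h.eqn⟩
  have hg := h.hg
  have hT : Test (ball y S \ closedBall y κ) (fun x => g x - g' x) := by
    refine ⟨hg.1.sub hg'.1, hg.2.1.sub hg'.2.1, fun x hx => ⟨?_, fun hxK => ?_⟩⟩
    · have h1 : tsupport (fun x => g x - g' x) ⊆ tsupport g ∪ tsupport g' := by
        refine closure_minimal (fun z hz => ?_) ((isClosed_tsupport _).union (isClosed_tsupport _))
        by_contra hzc
        rw [mem_union, not_or] at hzc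
        exact hz (by
          show g z - g' z = 0
          rw [image_eq_zero_of_notMem_tsupport hzc.1, image_eq_zero_of_notMem_tsupport hzc.2,
            sub_zero])
      rcases h1 hx with h2 | h2
      · exact hg.2.2 h2
      · exact hg'.2.2 h2
    · have hxO : x ∈ ball y (κ + min ε ε') :=
        mem_ball.2 ((mem_closedBall.1 hxK).trans_lt (by have := lt_min h.hε hε'; linarith))
      obtain ⟨z, hz1, hz2⟩ := mem_closure_iff.1 hx _ isOpen_ball hxO
      refine hz2 ?_
      have hz3 := mem_ball.1 hz1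
      show g z - g' z = 0
      rw [h.h1 z (mem_closedBall.2 (hz3.le.trans (by linarith [min_le_left ε ε']))),
        h1' z (mem_closedBall.2 (hz3.le.trans (by linarith [min_le_right ε ε']))), sub_self]
  have h1 := H0.add hp h.h0 (hT.h0 (μ := volume) (p := p))
  have h2 : (fun x => P x - g x + (g x - g' x)) = fun x => P x - g' x := by
    funext x
    ring
  have h3 : (fun x => V x - ∇ g x + ∇ (fun x => g x - g' x) x) = fun x => V x - ∇ g' x := by
    funext x
    rw [grad_sub (hg.1.differentiable (by simp) x) (hg'.1.differentiable (by simp) x)]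
    abel
  rwa [h2, h3] at h1

/-- the energy -/
theorem PD.energy_eq (hP : PairStatement) (hI : IntgStatement) (hop : Op p volume a α β)
    (h : PD p a y S κ ε P g V) :
    ∫ x, ⟪a x (V x), V x⟫ = ∫ x, ⟪a x (V x), ∇ g x⟫ := by
  have hV := h.memV
  have hG : MemLp (fun x => ∇ g x) (ENNReal.ofReal p) volume := h.hg.memLp_grad _
  have h1 := hP n p volume a α β _ V _ _ hop (isOpen_ann y S κ) (hV.restrict _) h.eqn h.h0
  have i1 := (hI n p volume volume a α β V V hop hV hV).1
  have i2 := (hI n p volume volume a α β V _ hop hV hG).1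
  simp only [inner_sub_right] at h1
  rw [integral_sub i1 i2] at h1
  linarith

theorem PD.isH0 (hp : 1 < p) (h : PD p a y S κ ε P g V) : H0 volume p (ball y S) P V := by
  have h1 := H0.add hp (h.h0.mono sdiff_subset) (h.hg.h0 (μ := volume) (p := p))
  have h2 : (fun x => P x - g x + g x) = P := by
    funext x
    ring
  have h3 : (fun x => V x - ∇ g x + ∇ g x) = V := by
    funext x
    abel
  rwa [h2, h3] at h1

theorem energy_nonneg (hop : Op p volume a α β) (V : E n → E n) :
    0 ≤ ∫ x, ⟪a x (V x), V x⟫ := integral_nonneg fun x => H7.aV_nonneg hop x _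

/-- `α ∫ |V|^p ≤ En` -/
theorem energy_ge (hI : IntgStatement) (hop : Op p volume a α β) {V : E n → E n}
    (hV : MemLp V (ENNReal.ofReal p) volume) :
    α * ∫ x, ‖V x‖ ^ p ≤ ∫ x, ⟪a x (V x), V x⟫ := by
  rw [← integral_const_mul]
  exact integral_mono ((H50.int_rpow hop.hp hV).const_mul _)
    (hI n p volume volume a α β V V hop hV hV).1 fun x => hop.ell x _

theorem PD.ae_one (hp : 1 < p) (h : PD p a y S κ ε P g V) :
    ∀ᵐ x : E n, x ∈ closedBall y κ → P x = 1 := by
  have h4 := (H0.ae_eq_zero hp (isOpen_ann y S κ).measurableSet h.h0).1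
  rw [ae_restrict_iff' (isOpen_ann y S κ).measurableSet.compl] at h4
  filter_upwards [h4] with x hx hxK
  have h5 := hx fun h => h.2 hxK
  rw [h.h1 x (closedBall_subset_closedBall (by linarith [h.hε]) hxK)] at h5
  linarith

/-- the continuous representative of a potential -/
theorem PD.rep (hH : H0cStatement) (hn : 1 ≤ n) (hpn : (n : ℝ) < p)
    (hop : Op p volume a α β) : ∃ C : ℝ, 0 < C ∧ ∀ (y : E n) (S κ ε : ℝ) (P g : E n → ℝ)
      (V : E n → E n), PD p a y S κ ε P g V → ∃ P' : E n → ℝ, Continuous P' ∧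
      P' =ᵐ[volume] P ∧ P' y = 1 ∧ (∀ z ∈ ball y S \ closedBall y κ, P' z = P z) ∧
      ∀ x, |P' x| ≤ C * S ^ (1 - n / p) * (∫ y, ‖V y‖ ^ p) ^ (1 / p) := by
  have hp := hop.hp
  obtain ⟨C, hC, hH⟩ := hH n p hn hpn
  refine ⟨C, hC, fun y S κ ε P g V h => ?_⟩
  have hS : 0 < S := by
    have := h.sub (mem_closedBall_self h.hκ.le)
    exact (dist_nonneg.trans_lt (mem_ball.1 this))
  obtain ⟨P', hc, hae, -, hb⟩ := hH (ball y S) y S P V hS isOpen_ball subset_rfl (h.isH0 hp)
  refine ⟨P', hc, hae, ?_, fun z hz => ?_, hb⟩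
  · refine H7.mem_of_ae hop.toGeo (G := closedBall y κ) (closedBall_mem_nhds y h.hκ)
      hc.continuousAt (isClosed_singleton (x := (1 : ℝ))) ?_
    filter_upwards [hae, h.ae_one hp] with x h1 h2 hx
    exact h1.trans (h2 hx)
  · have h1 : (fun x => P' x - P x) z ∈ ({0} : Set ℝ) := by
      refine H7.mem_of_ae hop.toGeo (v := fun x => P' x - P x) (x := z)
        (G := ball y S \ closedBall y κ) ((isOpen_ann y S κ).mem_nhds hz) ?_
        (isClosed_singleton (x := (0 : ℝ))) ?_
      · exact hc.continuousAt.sub (h.cont.continuousAt ((isOpen_ann y S κ).mem_nhds hz))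
      · filter_upwards [hae] with x h1 _
        rw [mem_singleton_iff, h1, sub_self]
    have h2 : P' z - P z = 0 := h1
    linarith

/-- the upper bound of the energy -/
theorem energy_upper (hC : CutStatement) (hP : PairStatement) (hI : IntgStatement) (hn : 1 ≤ n)
    (hop : Op p volume a α β) : ∃ C : ℝ, 0 < C ∧ ∀ (y : E n) (S κ ε : ℝ) (P g : E n → ℝ)
      (V : E n → E n), PD p a y S κ ε P g V → κ ≤ S / 4 →
      ∫ x, ⟪a x (V x), V x⟫ ≤ C * S ^ ((n : ℝ) - p) := by
  have hp := hop.hp
  have hp0 : 0 < p := by linarith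
  have hp1 : 0 < p - 1 := by linarith
  have hα := hop.hα
  have hβ : 0 < β := hα.trans_le hop.hαβ
  have hom := unit_pos n
  obtain ⟨C₀, hC₀, hC⟩ := hC n
  set om := volume.real (ball (0 : E n) 1) with homd
  set K := (4 * C₀) ^ p * om with hK
  have hK0 : 0 < K := by positivity
  refine ⟨β * (β / α) ^ (p - 1) * K, by positivity, fun y S κ ε P g V h hκS => ?_⟩
  have hκ := h.hκ
  have hS : 0 < S := by linarith
  obtain ⟨g', hg', -, hg'1, hg's, hg'd⟩ := hC y (S / 2) (3 * S / 4) (by positivity)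
    (by linarith)
  have hT : Test (ball y S) g' := ⟨hg'.1, hg'.2.1, hg's.trans
    (closedBall_subset_ball (by linarith))⟩
  have h' := h.swap hp hT (ε' := S / 4) (by positivity) fun x hx =>
    hg'1 x (closedBall_subset_closedBall (by linarith) hx)
  have hV := h.memV
  have hG : MemLp (fun x => ∇ g' x) (ENNReal.ofReal p) volume := hT.memLp_grad _
  have e1 := h'.energy_eq hP hI hop
  have e2 := (hI n p volume volume a α β V _ hop hV hG).2.2.2
  rw [← e1] at e2
  have e3 := (le_abs_self _).trans e2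
  have e4 := energy_ge hI hop hV
  set X := ∫ x, ‖V x‖ ^ p with hX
  have hX0 : 0 ≤ X := integral_nonneg fun x => by positivity
  set En := ∫ x, ⟪a x (V x), V x⟫ with hEn
  -- the gradient of the cut-off
  have hgb : ∫ x, ‖∇ g' x‖ ^ p ≤ K * S ^ ((n : ℝ) - p) := by
    have h1 : ∀ x, ‖∇ g' x‖ ^ p ≤ (ball y S).indicator (fun _ => (4 * C₀ / S) ^ p) x := by
      intro x
      by_cases hx : x ∈ ball y S
      · rw [indicator_of_mem hx]
        refine Real.rpow_le_rpow (norm_nonneg _) ((hg'd x).trans (le_of_eq ?_)) hp0.le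
        field_simp
        ring
      · rw [indicator_of_notMem hx, grad_eq_zero_of_notMem (fun h => hx (hT.2.2 h)), norm_zero,
          Real.zero_rpow hp0.ne']
    have h2 : Integrable ((ball y S).indicator fun _ : E n => (4 * C₀ / S) ^ p) volume :=
      (integrable_indicator_iff measurableSet_ball).2
        (integrableOn_const (hs := measure_ball_lt_top.ne))
    refine (integral_mono (H50.int_rpow hp hG) h2 h1).trans (le_of_eq ?_)
    rw [integral_indicator measurableSet_ball, setIntegral_const, smul_eq_mul, vol_ball hn y hS,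
      hK, ← homd, Real.div_rpow (by positivity) hS.le, Real.rpow_sub hS]
    field_simp
  have hG0 : 0 ≤ ∫ x, ‖∇ g' x‖ ^ p := integral_nonneg fun x => by positivity
  set T := K * S ^ ((n : ℝ) - p) with hTd
  have hT0 : 0 < T := by positivity
  have e5 : En ≤ β * (X ^ ((p - 1) / p) * T ^ (1 / p)) := by
    refine e3.trans ?_
    gcongr
  -- `X ≤ (β/α)^p T`
  have e6 : X ≤ (β / α) ^ p * T := by
    rcases hX0.eq_or_lt with h0 | h0
    · rw [← h0]; positivity
    · have h1 : α * X ≤ β * (X ^ ((p - 1) / p) * T ^ (1 / p)) := e4.trans e5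
      have h2 : X = X ^ ((p - 1) / p) * X ^ (1 / p) := by
        rw [← Real.rpow_add h0]
        have : (p - 1) / p + 1 / p = 1 := by field_simp; ring
        rw [this, Real.rpow_one]
      have h3 : X ^ (1 / p) ≤ β / α * T ^ (1 / p) := by
        have h4 : 0 < X ^ ((p - 1) / p) := by positivity
        have h5 : X ^ ((p - 1) / p) * (α * X ^ (1 / p)) ≤
            X ^ ((p - 1) / p) * (β * T ^ (1 / p)) := by
          calc X ^ ((p - 1) / p) * (α * X ^ (1 / p)) = α * (X ^ ((p - 1) / p) * X ^ (1 / p)) := by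
                ring
            _ = α * X := by rw [← h2]
            _ ≤ β * (X ^ ((p - 1) / p) * T ^ (1 / p)) := h1
            _ = _ := by ring
        have h6 := le_of_mul_le_mul_left h5 h4
        rw [div_mul_eq_mul_div, le_div_iff₀ hα]
        linarith
      calc X = (X ^ (1 / p)) ^ p := by
            rw [← Real.rpow_mul h0.le, one_div_mul_cancel hp0.ne', Real.rpow_one]
        _ ≤ (β / α * T ^ (1 / p)) ^ p := Real.rpow_le_rpow (by positivity) h3 hp0.le
        _ = _ := by
            rw [Real.mul_rpow (by positivity) (by positivity), ← Real.rpow_mul hT0.le,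
              one_div_mul_cancel hp0.ne', Real.rpow_one]
  calc En ≤ β * (X ^ ((p - 1) / p) * T ^ (1 / p)) := e5
    _ ≤ β * (((β / α) ^ p * T) ^ ((p - 1) / p) * T ^ (1 / p)) := by gcongr
    _ = β * (β / α) ^ (p - 1) * T := by
        rw [Real.mul_rpow (by positivity) hT0.le, ← Real.rpow_mul (by positivity)]
        have h1 : p * ((p - 1) / p) = p - 1 := by field_simp
        have h2 : T ^ ((p - 1) / p) * T ^ (1 / p) = T := by
          rw [← Real.rpow_add hT0]
          have : (p - 1) / p + 1 / p = 1 := by field_simp; ring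
          rw [this, Real.rpow_one]
        rw [h1, mul_assoc ((β / α) ^ (p - 1)), h2]
        ring
    _ = _ := by rw [hTd]; ring

/-- the lower bound of the energy -/
theorem energy_lower (hH : H0cStatement) (hI : IntgStatement) (hn : 1 ≤ n) (hpn : (n : ℝ) < p)
    (hop : Op p volume a α β) : ∃ c : ℝ, 0 < c ∧ ∀ (y : E n) (S κ ε : ℝ) (P g : E n → ℝ)
      (V : E n → E n), PD p a y S κ ε P g V →
      c * S ^ ((n : ℝ) - p) ≤ ∫ x, ⟪a x (V x), V x⟫ := by
  have hp := hop.hp
  have hp0 : 0 < p := by linarith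
  have hα := hop.hα
  obtain ⟨C, hC, hrep⟩ := PD.rep hH hn hpn hop
  refine ⟨α * (C ^ p)⁻¹, by positivity, fun y S κ ε P g V h => ?_⟩
  have hS : 0 < S := by
    have := h.sub (mem_closedBall_self h.hκ.le)
    exact (dist_nonneg.trans_lt (mem_ball.1 this))
  obtain ⟨P', -, -, h1, -, hb⟩ := hrep y S κ ε P g V h
  have h2 := hb y
  rw [h1, abs_one] at h2
  have h3 := energy_ge hI hop h.memV
  set X := ∫ x, ‖V x‖ ^ p with hX
  have hX0 : 0 ≤ X := integral_nonneg fun x => by positivity
  have h4 : 1 ≤ C ^ p * S ^ (p - n) * X := by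
    have h5 : (1 : ℝ) ^ p ≤ (C * S ^ (1 - n / p) * X ^ (1 / p)) ^ p :=
      Real.rpow_le_rpow zero_le_one h2 hp0.le
    rw [Real.one_rpow, Real.mul_rpow (by positivity) (by positivity),
      Real.mul_rpow hC.le (by positivity), ← Real.rpow_mul hS.le, ← Real.rpow_mul hX0,
      one_div_mul_cancel hp0.ne', Real.rpow_one] at h5
    have h6 : (1 - n / p) * p = p - n := by field_simp
    rwa [h6] at h5
  have h5 : (C ^ p)⁻¹ * S ^ ((n : ℝ) - p) ≤ X := by
    have h6 : S ^ ((n : ℝ) - p) = (S ^ (p - n))⁻¹ := by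
      rw [← Real.rpow_neg hS.le]; congr 1; ring
    rw [h6, ← mul_inv, inv_le_iff_one_le_mul₀' (by positivity)]
    exact h4
  calc α * (C ^ p)⁻¹ * S ^ ((n : ℝ) - p) = α * ((C ^ p)⁻¹ * S ^ ((n : ℝ) - p)) := by ring
    _ ≤ α * X := mul_le_mul_of_nonneg_left h5 hα.le
    _ ≤ _ := h3

end Pool.Agent.Lib.MP_abd978_an.UN.H94
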