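import Pool.Agent.Lib.MP_abd978_an.UN.Interfaces
import Pool.Agent.Lib.MP_abd978_an.H50.Common
import Pool.Agent.Lib.MP_abd978_an.H7.Barrier

/-!
# Project UNW: auxiliary lemmas for POTB and CAPF
-/

set_option autoImplicit false

open MeasureTheory Metric Set Filter Topology ContDiff
open scoped Gradient RealInnerProductSpace NNReal ENNReal

namespace Pool.Agent.Lib.MP_abd978_an.UN.H94

open Pool.Agent.Lib.MP_abd978_an

/-! ### A smooth truncation -/

/-- `1` for `t ≤ 1/2`, `0` for `t ≥ 1` -/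
noncomputable def chi (t : ℝ) : ℝ := Real.smoothTransition (2 - 2 * t)

theorem chi_smooth : ContDiff ℝ ∞ chi :=
  Real.smoothTransition.contDiff.comp (contDiff_const.sub (contDiff_const.mul contDiff_id))

theorem chi_nonneg (t : ℝ) : 0 ≤ chi t := Real.smoothTransition.nonneg _

theorem chi_le_one (t : ℝ) : chi t ≤ 1 := Real.smoothTransition.le_one _

theorem chi_one {t : ℝ} (h : t ≤ 1 / 2) : chi t = 1 :=
  Real.smoothTransition.one_of_one_le (by linarith)

theorem chi_zero {t : ℝ} (h : 1 ≤ t) : chi t = 0 :=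
  Real.smoothTransition.zero_of_nonpos (by linarith)

/-- the primitive of `chi` -/
noncomputable def H1 (t : ℝ) : ℝ := ∫ s in (0 : ℝ)..t, chi s

theorem H1_deriv (t : ℝ) : HasDerivAt H1 (chi t) t :=
  intervalIntegral.integral_hasDerivAt_right (chi_smooth.continuous.intervalIntegrable _ _)
    (chi_smooth.continuous.stronglyMeasurableAtFilter _ _) chi_smooth.continuous.continuousAt

theorem deriv_H1 : deriv H1 = chi := by
  funext t
  exact (H1_deriv t).deriv

theorem H1_smooth : ContDiff ℝ ∞ H1 := by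
  rw [contDiff_infty_iff_deriv]
  refine ⟨fun t => (H1_deriv t).differentiableAt, ?_⟩
  rw [deriv_H1]
  exact chi_smooth

theorem H1_zero : H1 0 = 0 := intervalIntegral.integral_same

theorem H1_mono : Monotone H1 := by
  refine monotone_of_deriv_nonneg (fun t => (H1_deriv t).differentiableAt) fun t => ?_
  rw [deriv_H1]
  exact chi_nonneg t

theorem H1_half : H1 (1 / 2) = 1 / 2 := by
  have h1 : H1 (1 / 2) = ∫ _s in (0 : ℝ)..(1 / 2), (1 : ℝ) := by
    refine intervalIntegral.integral_congr fun s hs => ?_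
    rw [uIcc_of_le (by norm_num)] at hs
    exact chi_one hs.2
  rw [h1, intervalIntegral.integral_const]
  norm_num

theorem H1_large {t : ℝ} (h : 1 ≤ t) : H1 t = H1 1 := by
  have h1 : H1 t = H1 1 + ∫ s in (1 : ℝ)..t, chi s :=
    (intervalIntegral.integral_add_adjacent_intervals
      (chi_smooth.continuous.intervalIntegrable _ _)
      (chi_smooth.continuous.intervalIntegrable _ _)).symm
  have h2 : ∫ s in (1 : ℝ)..t, chi s = ∫ _s in (1 : ℝ)..t, (0 : ℝ) := by
    refine intervalIntegral.integral_congr fun s hs => ?_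
    rw [uIcc_of_le h] at hs
    exact chi_zero hs.1
  rw [h1, h2]
  simp

theorem H1_one_ge : 1 / 2 ≤ H1 1 := by
  rw [← H1_half]
  exact H1_mono (by norm_num)

theorem H1_one_le : H1 1 ≤ 1 := by
  have h1 : H1 1 ≤ ∫ _s in (0 : ℝ)..1, (1 : ℝ) :=
    intervalIntegral.integral_mono_on (by norm_num)
      (chi_smooth.continuous.intervalIntegrable _ _) (continuous_const.intervalIntegrable _ _)
      fun s _ => chi_le_one s
  rw [intervalIntegral.integral_const] at h1
  simpa using h1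

/-- `m c₁ - H((1 - s))` with `H(t) = m H₁(t/m)` -/
noncomputable def GG (m s : ℝ) : ℝ := m * (H1 1 - H1 ((1 - s) / m))

theorem GG_smooth (m : ℝ) : ContDiff ℝ ∞ (GG m) :=
  contDiff_const.mul (contDiff_const.sub (H1_smooth.comp
    ((contDiff_const.sub contDiff_id).div_const m)))

theorem GG_deriv {m : ℝ} (hm : m ≠ 0) (s : ℝ) : HasDerivAt (GG m) (chi ((1 - s) / m)) s := by
  have h1 : HasDerivAt (fun s : ℝ => (1 - s) / m) (-1 / m) s :=
    ((hasDerivAt_id s).const_sub 1).div_const m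
  have h2 : HasDerivAt (fun s : ℝ => H1 ((1 - s) / m)) (chi ((1 - s) / m) * (-1 / m)) s :=
    HasDerivAt.comp (h₂ := H1) s (H1_deriv ((1 - s) / m)) h1
  have h3 := (h2.const_sub (H1 1)).const_mul m
  refine h3.congr_deriv ?_
  field_simp

theorem GG_zero {m : ℝ} (hm : 0 < m) (hm1 : m ≤ 1) : GG m 0 = 0 := by
  have : (1 : ℝ) ≤ (1 - 0) / m := by
    rw [sub_zero, le_div_iff₀ hm]; linarith
  rw [GG, H1_large this, sub_self, mul_zero]

theorem GG_one (m : ℝ) : GG m 1 = m * H1 1 := by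
  rw [GG, sub_self, zero_div, H1_zero, sub_zero]

theorem GG_far {m s : ℝ} (hm : 0 < m) (h : m ≤ 1 - s) : GG m s = 0 := by
  have : (1 : ℝ) ≤ (1 - s) / m := by
    rw [le_div_iff₀ hm]; linarith
  rw [GG, H1_large this, sub_self, mul_zero]

/-! ### Balls, cut-offs -/

variable {n : ℕ} {p α β : ℝ} {a : E n → E n → E n}

theorem nontriv (hn : 1 ≤ n) : Nontrivial (E n) := by
  have : Nonempty (Fin n) := ⟨⟨0, hn⟩⟩
  infer_instance

theorem vol_ball (hn : 1 ≤ n) (y : E n) {r : ℝ} (hr : 0 < r) :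
    volume.real (ball y r) = r ^ (n : ℝ) * volume.real (ball (0 : E n) 1) := by
  have := nontriv hn
  rw [Measure.real, Measure.addHaar_ball volume y hr.le, ENNReal.toReal_mul,
    ENNReal.toReal_ofReal (by positivity), Measure.real, finrank_euclideanSpace_fin,
    Real.rpow_natCast]

theorem unit_pos (n : ℕ) : 0 < volume.real (ball (0 : E n) 1) :=
  ENNReal.toReal_pos (measure_ball_pos _ _ one_pos).ne' measure_ball_lt_top.ne

/-- a cut-off of an annulus, with a bound for the gradient -/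
theorem annCut' (hC : CutStatement) (n : ℕ) : ∃ C : ℝ, 0 < C ∧ ∀ (y : E n) (s1 s2 t1 t2 : ℝ),
    0 < s1 → s1 < s2 → s2 < t1 → t1 < t2 →
    ∃ η : E n → ℝ, Test univ η ∧ (∀ x, η x ∈ Icc (0 : ℝ) 1) ∧
      (∀ x, s2 < dist x y → dist x y ≤ t1 → η x = 1) ∧
      tsupport η ⊆ {x | s1 ≤ dist x y ∧ dist x y ≤ t2} ∧
      ∀ x, ‖∇ η x‖ ≤ C / (s2 - s1) + C / (t2 - t1) := by
  obtain ⟨C, hC0, hC⟩ := hC n
  refine ⟨C, hC0, fun y s1 s2 t1 t2 h0 h1 h2 h3 => ?_⟩
  obtain ⟨η1, a1, b1, c1, d1, e1'⟩ := hC y t1 t2 (by linarith) h3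
  obtain ⟨η2, a2, b2, c2, d2, e2'⟩ := hC y s1 s2 h0 h1
  refine ⟨fun x => η1 x * (1 - η2 x), ⟨a1.1.mul (contDiff_const.sub a2.1), ?_, subset_univ _⟩,
    fun x => ⟨?_, ?_⟩, fun x hx hx' => ?_, ?_, fun x => ?_⟩
  · exact a1.2.1.mul_right
  · exact mul_nonneg (b1 x).1 (by linarith [(b2 x).2])
  · exact mul_le_one₀ (b1 x).2 (by linarith [(b2 x).2]) (by linarith [(b2 x).1])
  · have e1 : η1 x = 1 := c1 x (mem_closedBall.2 hx')
    have e2 : η2 x = 0 := image_eq_zero_of_notMem_tsupport fun hx2 => by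
      have := mem_closedBall.1 (d2 hx2)
      linarith
    show η1 x * (1 - η2 x) = 1
    rw [e1, e2]
    norm_num
  · intro x hx
    have e1 : x ∈ tsupport η1 := tsupport_mul_subset_left hx
    have e2 : x ∈ tsupport (fun x => 1 - η2 x) := tsupport_mul_subset_right hx
    refine ⟨?_, mem_closedBall.1 (d1 e1)⟩
    have hcl : IsClosed {x : E n | s1 ≤ dist x y} :=
      isClosed_le continuous_const (continuous_id.dist continuous_const)
    have hsub : tsupport (fun x => 1 - η2 x) ⊆ {x : E n | s1 ≤ dist x y} := by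
      refine closure_minimal (fun z hz => ?_) hcl
      by_contra hcon
      have hz1 : dist z y < s1 := not_le.1 hcon
      exact hz (by
        show 1 - η2 z = 0
        rw [c2 z (mem_closedBall.2 hz1.le)]
        norm_num)
    exact hsub e2
  · have hd1 : DifferentiableAt ℝ η1 x := a1.1.differentiable (by simp) x
    have hd2 : DifferentiableAt ℝ η2 x := a2.1.differentiable (by simp) x
    have hd3 : DifferentiableAt ℝ (fun x => 1 - η2 x) x := hd2.const_sub 1
    have h4 : ∇ (fun x => 1 - η2 x) x = -∇ η2 x := by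
      have h5 : HasFDerivAt (fun x => 1 - η2 x) (-fderiv ℝ η2 x) x :=
        hd2.hasFDerivAt.const_sub 1
      rw [grad_of_hasFDerivAt h5, map_neg]
      rfl
    rw [grad_mul hd1 hd3, h4]
    have hb1 := b1 x
    have hb2 := b2 x
    calc ‖η1 x • -∇ η2 x + (1 - η2 x) • ∇ η1 x‖
        ≤ ‖η1 x • -∇ η2 x‖ + ‖(1 - η2 x) • ∇ η1 x‖ := norm_add_le _ _
      _ = |η1 x| * ‖∇ η2 x‖ + |1 - η2 x| * ‖∇ η1 x‖ := by
          rw [norm_smul, norm_smul, norm_neg, Real.norm_eq_abs, Real.norm_eq_abs]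
      _ ≤ 1 * (C / (s2 - s1)) + 1 * (C / (t2 - t1)) := by
          refine add_le_add (mul_le_mul ?_ (e2' x) (norm_nonneg _) zero_le_one)
            (mul_le_mul ?_ (e1' x) (norm_nonneg _) zero_le_one)
          · rw [abs_le]; exact ⟨by linarith [hb1.1], hb1.2⟩
          · rw [abs_le]; exact ⟨by linarith [hb2.2], by linarith [hb2.1]⟩
      _ = _ := by ring

theorem H0.toSob {μ : Measure (E n)} {D : Set (E n)} {u : E n → ℝ} {v : E n → E n}
    (h : H0 μ p D u v) (D' : Set (E n)) : IsSob μ p D' u v := by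
  obtain ⟨h1, h2, ψ, h3, h4, h5⟩ := h
  refine ⟨h1.restrict _, h2.restrict _, ψ, fun i => (h3 i).1.contDiffOn, ?_, ?_⟩
  · exact tendsto_of_tendsto_of_tendsto_of_le_of_le tendsto_const_nhds h4 (fun _ => bot_le)
      fun i => eLpNorm_mono_measure _ Measure.restrict_le_self
  · exact tendsto_of_tendsto_of_tendsto_of_le_of_le tendsto_const_nhds h5 (fun _ => bot_le)
      fun i => eLpNorm_mono_measure _ Measure.restrict_le_self

/-- the gradient of a function which is locally constant in an open set -/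
theorem grad_of_const_on {g : E n → ℝ} {O : Set (E n)} (hO : IsOpen O) {c : ℝ}
    (h : ∀ x ∈ O, g x = c) {x : E n} (hx : x ∈ O) : ∇ g x = 0 :=
  H7.grad_eq_zero_of_eventually (c := c) (by
    filter_upwards [hO.mem_nhds hx] with z hz
    exact h z hz)

/-! ### Algebra -/

theorem alg_up {m K r d : ℝ} (hp : 1 < p) (hm : 0 < m) (hK : 0 < K) (hr : 0 < r)
    (h : m ^ p ≤ K * m * r ^ d) : m ≤ K ^ (1 / (p - 1)) * r ^ (d / (p - 1)) := by
  have hp1 : 0 < p - 1 := by linarith
  have h1 : m ^ (p - 1) ≤ K * r ^ d := by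
    have h2 : m ^ p = m ^ (p - 1) * m := by
      rw [← Real.rpow_add_one hm.ne']; ring_nf
    rw [h2] at h
    have h3 : m ^ (p - 1) * m ≤ (K * r ^ d) * m := by linarith
    exact le_of_mul_le_mul_right h3 hm
  calc m = (m ^ (p - 1)) ^ (1 / (p - 1)) := by
        rw [← Real.rpow_mul hm.le, mul_one_div_cancel hp1.ne', Real.rpow_one]
    _ ≤ (K * r ^ d) ^ (1 / (p - 1)) := Real.rpow_le_rpow (by positivity) h1 (by positivity)
    _ = _ := by
        rw [Real.mul_rpow hK.le (by positivity), ← Real.rpow_mul hr.le, mul_one_div]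

theorem alg_low {M c r d : ℝ} (hp : 1 < p) (hM : 0 ≤ M) (hc : 0 < c) (hr : 0 < r)
    (h : c * r ^ d ≤ M ^ (p - 1)) : c ^ (1 / (p - 1)) * r ^ (d / (p - 1)) ≤ M := by
  have hp1 : 0 < p - 1 := by linarith
  calc c ^ (1 / (p - 1)) * r ^ (d / (p - 1)) = (c * r ^ d) ^ (1 / (p - 1)) := by
        rw [Real.mul_rpow hc.le (by positivity), ← Real.rpow_mul hr.le, mul_one_div]
    _ ≤ (M ^ (p - 1)) ^ (1 / (p - 1)) := Real.rpow_le_rpow (by positivity) h (by positivity)
    _ = M := by
        rw [← Real.rpow_mul hM, mul_one_div_cancel hp1.ne', Real.rpow_one]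

end Pool.Agent.Lib.MP_abd978_an.UN.H94
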